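import Pool.Agent.Lib.MP_39b43f_al.Defs

/-!
# The odd product characterisation
-/

namespace Pool.Agent.Lib.MP_39b43f_al

variable {G : Type*} [Group G]

lemma inv_self {a : G} (ha : orderOf a = 2) : a⁻¹ = a := by
  have h : a ^ 2 = 1 := by rw [← ha]; exact pow_orderOf_eq_one a
  rw [pow_two] at h
  exact inv_eq_of_mul_eq_one_left h

lemma mul_self {a : G} (ha : orderOf a = 2) : a * a = 1 := by
  have h : a ^ 2 = 1 := by rw [← ha]; exact pow_orderOf_eq_one a
  rwa [pow_two] at h

lemma conj_mem {D : Set G} (hD : IsNormalInvolutionSet D) {d : G} (hd : d ∈ D) (g : G) :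
    g⁻¹ * d * g ∈ D := by
  rw [← hD.2 g]
  exact ⟨d, hd, rfl⟩

/-- `a (a d)^k` for an involution `a`: conjugation by `a` inverts `a d`. -/
lemma inv_conj {a d : G} (ha : orderOf a = 2) (hd : orderOf d = 2) (k : ℕ) :
    a * (a * d) ^ k * a = ((a * d) ^ k)⁻¹ := by
  have h1 : a * (a * d) ^ k * a = (a * (a * d) * a⁻¹) ^ k := by
    rw [conj_pow, inv_self ha]
  rw [h1, ← inv_pow]
  congr 1
  rw [inv_self ha, mul_inv_rev, inv_self ha, inv_self hd, ← mul_assoc, mul_self ha, one_mul]

lemma inv_conj' {a d : G} (ha : orderOf a = 2) (hd : orderOf d = 2) (k : ℕ) :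
    d * (a * d) ^ k * d = ((a * d) ^ k)⁻¹ := by
  have h1 : d * (a * d) ^ k * d = (d * (a * d) * d⁻¹) ^ k := by
    rw [conj_pow, inv_self hd]
  rw [h1, ← inv_pow]
  congr 1
  rw [inv_self hd, mul_inv_rev, inv_self ha, inv_self hd, mul_assoc, mul_assoc, mul_self hd,
    mul_one]

/-- conjugating the reflection `a (a d)^k` -/
lemma conj_refl {a d : G} (ha : orderOf a = 2) (hd : orderOf d = 2) (j k : ℕ) :
    ((a * d) ^ j)⁻¹ * (a * (a * d) ^ k) * (a * d) ^ j = a * (a * d) ^ (k + 2 * j) := by
  rw [← inv_conj ha hd j]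
  have : a * (a * d) ^ j * a * (a * (a * d) ^ k) * (a * d) ^ j =
      a * (a * d) ^ j * (a * a) * (a * d) ^ k * (a * d) ^ j := by group
  rw [this, mul_self ha, mul_one, mul_assoc, mul_assoc, ← pow_add, ← pow_add]
  congr 2
  ring

lemma reflection_mem {D : Set G} (hD : IsNormalInvolutionSet D) {a d : G} (ha : a ∈ D)
    (hd : d ∈ D) (k : ℕ) : a * (a * d) ^ k ∈ D := by
  have ha2 := hD.1 a ha
  have hd2 := hD.1 d hd
  rcases Nat.even_or_odd' k with ⟨j, hj | hj⟩
  · have h := conj_refl ha2 hd2 j 0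
    rw [pow_zero, mul_one, zero_add, ← hj] at h
    rw [← h]
    exact conj_mem hD ha _
  · have h := conj_refl ha2 hd2 j 1
    have e : a * (a * d) = d := by rw [← mul_assoc, mul_self ha2, one_mul]
    rw [pow_one, e, add_comm 1, ← hj] at h
    rw [← h]
    exact conj_mem hD hd _

/-- the key step: an even product forces membership in `T`. -/
lemma odd_of_admissible [Finite G] {D T : Set G} (hD : IsNormalInvolutionSet D)
    (hT : Admissible D T) {a d : G} (ha : a ∈ T) (hd : d ∈ D) (hdT : d ∉ T) :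
    Odd (orderOf (a * d)) := by
  obtain ⟨_, hTD, h1, h2⟩ := hT
  have haD : a ∈ D := hTD.1 ha
  have ha2 := hD.1 a haD
  have hd2 := hD.1 d hd
  by_contra hodd
  rw [Nat.not_odd_iff_even] at hodd
  obtain ⟨k, hk⟩ := hodd
  have hpos : 0 < orderOf (a * d) := orderOf_pos _
  set z := (a * d) ^ k with hz
  have hzz : z * z = 1 := by
    rw [hz, ← pow_add, ← hk, pow_orderOf_eq_one]
  have hz1 : z ≠ 1 := by
    intro h
    have := orderOf_dvd_of_pow_eq_one h
    have := Nat.le_of_dvd (by omega) this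
    omega
  have hzinv : z⁻¹ = z := inv_eq_of_mul_eq_one_left hzz
  have haz : a * z = z * a := by
    have := inv_conj ha2 hd2 k
    rw [← hz, hzinv] at this
    calc a * z = a * z * (a * a) := by rw [mul_self ha2, mul_one]
      _ = (a * z * a) * a := by group
      _ = z * a := by rw [this]
  have hdz : d * z = z * d := by
    have := inv_conj' ha2 hd2 k
    rw [← hz, hzinv] at this
    calc d * z = d * z * (d * d) := by rw [mul_self hd2, mul_one]
      _ = (d * z * d) * d := by group
      _ = z * d := by rw [this]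
  have hazD : a * z ∈ D := reflection_mem hD haD hd k
  have hazT : a * z ∈ T := by
    apply h1 a ha
    refine ⟨hazD, ?_⟩
    rw [mul_assoc, ← haz]
  have hprod : a * (a * z) = z := by rw [← mul_assoc, mul_self ha2, one_mul]
  apply hdT
  apply h2 a ha (a * z) hazT
  · rw [hprod, mul_assoc, ← haz, hprod]
  · rw [hprod]; exact hz1
  · rw [hprod]
    exact ⟨hd, hdz⟩

/-- the converse. -/
lemma admissible_of_odd [Finite G] {D T : Set G} (hD : IsNormalInvolutionSet D)
    (hne : T.Nonempty) (hTD : T ⊂ D)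
    (hodd : ∀ a ∈ T, ∀ d ∈ D, d ∉ T → Odd (orderOf (a * d))) : Admissible D T := by
  refine ⟨hne, hTD, ?_, ?_⟩
  · rintro a ha d ⟨hd, hcomm⟩
    by_contra hdT
    have h := hodd a ha d hd hdT
    have ha2 := hD.1 a (hTD.1 ha)
    have hd2 := hD.1 d hd
    have hsq : (a * d) ^ 2 = 1 := by
      rw [pow_two, mul_assoc, ← mul_assoc d a d, hcomm, mul_assoc, mul_self hd2, mul_one,
        mul_self ha2]
    have hdvd := orderOf_dvd_of_pow_eq_one hsq
    rcases (Nat.dvd_prime Nat.prime_two).1 hdvd with h1 | h1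
    · rw [orderOf_eq_one_iff] at h1
      apply hdT
      have : d = a := by
        rw [← inv_self ha2]
        exact (inv_eq_of_mul_eq_one_right h1).symm
      rw [this]; exact ha
    · rw [h1] at h
      exact absurd h (by decide)
  · rintro a ha b hb hab hne1 d ⟨hd, hcomm⟩
    by_contra hdT
    have ha2 := hD.1 a (hTD.1 ha)
    have hb2 := hD.1 b (hTD.1 hb)
    have hd2 := hD.1 d hd
    have h1 := hodd a ha d hd hdT
    have h2 := hodd b hb d hd hdT
    set c := a * b with hc
    -- `b d = (a d) c`, `c` an involution commuting with `a d`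
    have hcc : c * c = 1 := by
      rw [hc, mul_assoc, ← mul_assoc b a b, ← hab, mul_assoc, mul_self hb2, mul_one, mul_self ha2]
    have hbd : b * d = (a * d) * c := by
      have : b = a * c := by rw [hc, ← mul_assoc, mul_self ha2, one_mul]
      rw [mul_assoc, hcomm, ← mul_assoc, ← this]
    have hac : a * c = c * a := by
      calc a * c = b := by rw [hc, ← mul_assoc, mul_self ha2, one_mul]
        _ = c * a := by rw [hab, mul_assoc, mul_self ha2, mul_one]
    have hcad : Commute (a * d) c := by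
      change a * d * c = c * (a * d)
      rw [mul_assoc, hcomm, ← mul_assoc, hac, mul_assoc]
    have hpow : (b * d) ^ (orderOf (b * d) * orderOf (a * d)) = 1 := by
      rw [pow_mul, pow_orderOf_eq_one, one_pow]
    rw [hbd, hcad.mul_pow] at hpow
    rw [← hbd] at hpow
    have hx : (a * d) ^ (orderOf (b * d) * orderOf (a * d)) = 1 := by
      rw [mul_comm, pow_mul, pow_orderOf_eq_one, one_pow]
    rw [hx, one_mul] at hpow
    have hodd2 : Odd (orderOf (b * d) * orderOf (a * d)) := h2.mul h1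
    obtain ⟨m, hm⟩ := hodd2
    rw [hm, pow_add, pow_mul, pow_two, hcc, one_pow, one_mul, pow_one] at hpow
    exact hne1 hpow

theorem admissible_iff [Finite G] {D T : Set G} (hD : IsNormalInvolutionSet D)
    (hne : T.Nonempty) (hTD : T ⊂ D) :
    Admissible D T ↔ ∀ a ∈ T, ∀ d ∈ D, d ∉ T → Odd (orderOf (a * d)) :=
  ⟨fun h _ ha _ hd hdT => odd_of_admissible hD h ha hd hdT, admissible_of_odd hD hne hTD⟩

/-- involutions with a product of odd order are conjugate -/
lemma conj_of_odd {a d : G} (ha : orderOf a = 2) (hd : orderOf d = 2)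
    (h : Odd (orderOf (a * d))) : IsConj a d := by
  obtain ⟨m, hm⟩ := h
  rw [isConj_iff]
  -- conjugate `a` by `(ad)^(-(m+1))`: `a (ad)^(2m+2) = a (a d) = d`
  refine ⟨((a * d) ^ (m + 1))⁻¹, ?_⟩
  rw [inv_inv]
  have h1 := conj_refl ha hd (m + 1) 0
  rw [pow_zero, mul_one] at h1
  rw [h1]
  have h2 : (a * d) ^ (0 + 2 * (m + 1)) = a * d := by
    have : 0 + 2 * (m + 1) = (2 * m + 1) + 1 := by ring
    rw [this, pow_succ, ← hm, pow_orderOf_eq_one, one_mul]
  rw [h2, ← mul_assoc, mul_self ha, one_mul]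

end Pool.Agent.Lib.MP_39b43f_al
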