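import Pool.Agent.Lib.MP_39b43f_al.Struct

/-!
# The commutator criterion
-/

namespace Pool.Agent.Lib.MP_39b43f_al

variable {G : Type*} [Group G]

/-- the conjugacy class of `a` as a set -/
def cls (a : G) : Set G := {b | ∃ g : G, b = g⁻¹ * a * g}

lemma cls_normal {a : G} (ha : orderOf a = 2) : IsNormalInvolutionSet (cls a) := by
  constructor
  · rintro d ⟨g, rfl⟩
    rw [orderOf_cj, ha]
  · intro g
    ext b
    constructor
    · rintro ⟨d, ⟨h, rfl⟩, rfl⟩
      exact ⟨h * g, by group⟩
    · rintro ⟨h, rfl⟩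
      refine ⟨(h * g⁻¹)⁻¹ * a * (h * g⁻¹), ⟨h * g⁻¹, rfl⟩, ?_⟩
      group

/-- the structure theorem: a subgroup of odd index controlling an admissible subset -/
theorem exists_subgroup [Finite G] {D T : Set G} (hD : IsNormalInvolutionSet D)
    (hT : Admissible D T) :
    ∃ H : Subgroup G, H ≠ ⊤ ∧ Odd H.index ∧ D ∩ (H : Set G) ⊆ T ∧
      Admissible D (D ∩ (H : Set G)) ∧
      (∀ d ∈ D, d ∈ H → ∀ g : G, g⁻¹ * d * g ∈ H → g ∈ H) ∧
      (∀ d ∈ D, ∃ g : G, g⁻¹ * d * g ∈ H) := by
  obtain ⟨t, ht⟩ := hT.1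
  have htD : t ∈ D := hT.2.1.1 ht
  obtain ⟨d₀, hd₀, hd₀T⟩ := Set.exists_of_ssubset hT.2.1
  set H := stab D hD t with hH
  have htt : t ∈ comp D t := Relation.ReflTransGen.refl
  have htH : t ∈ H := by
    rw [hH, mem_stab]
    have : t⁻¹ * t * t = t := by group
    rw [this]; exact htt
  have hodd : Odd H.index := (mem_comp_of_mem_stab hD htD htD htH).2
  have hcap : D ∩ (H : Set G) = comp D t := by
    ext d
    constructor
    · rintro ⟨hd, hdH⟩
      exact (mem_comp_of_mem_stab hD htD hd hdH).1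
    · intro hd
      refine ⟨comp_subset htD hd, ?_⟩
      change d ∈ H
      rw [hH, ← stab_eq hD hd, mem_stab]
      have : d⁻¹ * d * d = d := by group
      rw [this]
      exact Relation.ReflTransGen.refl
  have hsub : comp D t ⊆ T := comp_subset_of_admissible hD hT ht
  have hconj := isConj_all hD hT
  refine ⟨H, ?_, hodd, by rw [hcap]; exact hsub, ?_, ?_, ?_⟩
  · intro htop
    have : d₀ ∈ D ∩ (H : Set G) := ⟨hd₀, by rw [htop]; trivial⟩
    rw [hcap] at this
    exact hd₀T (hsub this)
  · rw [hcap]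
    apply admissible_of_odd hD ⟨t, htt⟩
    · refine ⟨comp_subset htD, fun h => hd₀T (hsub (h hd₀))⟩
    · intro a ha d hd hda
      rw [← Nat.not_even_iff_odd]
      intro hev
      exact hda (Relation.ReflTransGen.tail ha ⟨comp_subset htD ha, hd, hev⟩)
  · intro d hd hdH g hg
    have h1 : d ∈ comp D t := by rw [← hcap]; exact ⟨hd, hdH⟩
    have h2 : g⁻¹ * d * g ∈ comp D t := by
      rw [← hcap]; exact ⟨conj_mem hD hd g, hg⟩
    rw [hH, ← stab_eq hD h1, mem_stab, comp_eq h1]
    exact h2
  · intro d hd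
    obtain ⟨c, hc⟩ := isConj_iff.1 (hconj d hd t htD)
    refine ⟨c⁻¹, ?_⟩
    rw [inv_inv, hc]
    exact htH

/-- The commutator criterion. -/
theorem hasAdmissible_iff [Finite G] :
    HasAdmissible G ↔ ∃ (a : G) (M : Subgroup G), orderOf a = 2 ∧ a ∉ Subgroup.center G ∧ M ≠ ⊤ ∧
      ∀ g : G, g ∉ M → Odd (orderOf (a⁻¹ * g⁻¹ * a * g)) := by
  constructor
  · rintro ⟨D, T, hD, hT⟩
    obtain ⟨H, hH1, hH2, hH3, hH4, hH5, hH6⟩ := exists_subgroup hD hT
    obtain ⟨a, haD, haH⟩ := hH4.1
    have ha2 := hD.1 a haD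
    refine ⟨a, H, ha2, ?_, hH1, ?_⟩
    · intro hc
      apply hH1
      rw [eq_top_iff]
      intro g _
      apply hH5 a haD haH g
      rw [mul_assoc, ← (Subgroup.mem_center_iff.1 hc g), ← mul_assoc, inv_mul_cancel, one_mul]
      exact haH
    · intro g hg
      have h1 : a⁻¹ * g⁻¹ * a * g = a * (g⁻¹ * a * g) := by
        rw [inv_self ha2]; group
      rw [h1]
      apply odd_of_admissible hD hH4 ⟨haD, haH⟩ (conj_mem hD haD g)
      rintro ⟨_, h2⟩
      exact hg (hH5 a haD haH g h2)
  · rintro ⟨a, M, ha2, hac, hM, hodd⟩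
    have hD := cls_normal ha2
    have haD : a ∈ cls a := ⟨1, by group⟩
    -- odd products
    have key : ∀ g : G, g ∉ M → Odd (orderOf (a * (g⁻¹ * a * g))) := by
      intro g hg
      have h1 : a⁻¹ * g⁻¹ * a * g = a * (g⁻¹ * a * g) := by
        rw [inv_self ha2]; group
      rw [← h1]
      exact hodd g hg
    by_cases hcent : ∀ g : G, g * a = a * g → g ∈ M
    · -- the centraliser of `a` lies in `M`
      have hctl : ∀ g : G, g⁻¹ * a * g ∈ M → a ∈ M → g ∈ M := by
        intro g hg haM
        by_contra hgM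
        obtain ⟨k, hk⟩ := key g hgM
        -- `g⁻¹ a g = m⁻¹ a m` with `m = (a a^g)^(k+1)`
        set d := g⁻¹ * a * g with hd
        have hd2 : orderOf d = 2 := by rw [hd, orderOf_cj, ha2]
        have h1 := conj_refl ha2 hd2 (k + 1) 0
        rw [pow_zero, mul_one] at h1
        have h2 : a * (a * d) ^ (0 + 2 * (k + 1)) = d := by
          have : 0 + 2 * (k + 1) = (2 * k + 1) + 1 := by ring
          rw [this, pow_succ, ← hk, pow_orderOf_eq_one, one_mul, ← mul_assoc, mul_self ha2,
            one_mul]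
        rw [h2] at h1
        set m := (a * d) ^ (k + 1) with hm
        have hmM : m ∈ M := M.pow_mem (M.mul_mem haM hg) _
        have h3 : g * m⁻¹ ∈ M := by
          apply hcent
          have h4 : m⁻¹ * a * m = g⁻¹ * a * g := by rw [h1, hd]
          have h5 : g * m⁻¹ * a = g * (m⁻¹ * a * m) * m⁻¹ := by group
          rw [h5, h4]; group
        have h6 : g * m⁻¹ * m ∈ M := M.mul_mem h3 hmM
        rw [inv_mul_cancel_right] at h6
        exact hgM h6
      have haM : a ∈ M := hcent a rfl
      refine ⟨cls a, cls a ∩ (M : Set G), hD, admissible_of_odd hD ⟨a, haD, haM⟩ ?_ ?_⟩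
      · refine ⟨Set.inter_subset_left, ?_⟩
        intro h
        apply hM
        rw [eq_top_iff]
        intro g _
        exact hctl g (h ⟨g, rfl⟩).2 haM
      · rintro b ⟨⟨g, rfl⟩, hb⟩ d ⟨h, rfl⟩ hd
        have hgM : g ∈ M := hctl g hb haM
        have hh : h⁻¹ * a * h ∉ M := fun h1 => hd ⟨⟨h, rfl⟩, h1⟩
        have hhM : h * g⁻¹ ∉ M := by
          intro h1
          apply hh
          have h2 : h ∈ M := by
            have := M.mul_mem h1 hgM
            rwa [inv_mul_cancel_right] at this
          exact M.mul_mem (M.mul_mem (M.inv_mem h2) haM) h2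
        have h3 := key (h * g⁻¹) hhM
        have h4 : g⁻¹ * a * g * (h⁻¹ * a * h) =
            g⁻¹ * (a * ((h * g⁻¹)⁻¹ * a * (h * g⁻¹))) * g := by group
        rw [h4, orderOf_cj]
        exact h3
    · -- `a` has odd product with every conjugate
      push Not at hcent
      obtain ⟨c, hc, hcM⟩ := hcent
      have hiso : ∀ d ∈ cls a, Odd (orderOf (a * d)) := by
        rintro d ⟨g, rfl⟩
        by_cases hg : g ∈ M
        · have h1 : c * g ∉ M := by
            intro h2
            apply hcM
            have := M.mul_mem h2 (M.inv_mem hg)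
            rwa [mul_inv_cancel_right] at this
          have h2 := key (c * g) h1
          have h3 : (c * g)⁻¹ * a * (c * g) = g⁻¹ * a * g := by
            have : (c * g)⁻¹ * a * (c * g) = g⁻¹ * c⁻¹ * (a * c) * g := by group
            rw [this, ← hc]; group
          rw [h3] at h2
          exact h2
        · exact key g hg
      obtain ⟨g, hg⟩ : ∃ g : G, g⁻¹ * a * g ≠ a := by
        by_contra hcon
        push Not at hcon
        apply hac
        rw [Subgroup.mem_center_iff]
        intro g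
        have h1 := hcon g
        calc g * a = g * (g⁻¹ * a * g) := by rw [h1]
          _ = a * g := by group
      refine ⟨cls a, {a}, hD, admissible_of_odd hD ⟨a, rfl⟩ ?_ ?_⟩
      · refine ⟨fun x hx => by rw [Set.mem_singleton_iff.1 hx]; exact haD, ?_⟩
        intro h
        exact hg (h ⟨g, rfl⟩)
      · intro b hb d hd _
        rw [Set.mem_singleton_iff.1 hb]
        exact hiso d hd

end Pool.Agent.Lib.MP_39b43f_al
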