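import Mathlib

/-!
# Admissible subsets of normal sets of involutions

Definitions following the problem file.
-/

namespace Pool.Agent.Lib.MP_39b43f_al

/-- `D` is a normal set of involutions of the group `G`: every element of `D` has order `2`, and
`g⁻¹ D g = D` for every `g`. -/
def IsNormalInvolutionSet {G : Type*} [Group G] (D : Set G) : Prop :=
  (∀ d ∈ D, orderOf d = 2) ∧ ∀ g : G, (fun d => g⁻¹ * d * g) '' D = D

/-- `C_D(x)`: the elements of `D` commuting with `x`. -/
def centIn {G : Type*} [Group G] (D : Set G) (x : G) : Set G := {d | d ∈ D ∧ d * x = x * d}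

/-- `T` is an admissible subset of `D`. -/
def Admissible {G : Type*} [Group G] (D T : Set G) : Prop :=
  T.Nonempty ∧ T ⊂ D ∧ (∀ a ∈ T, centIn D a ⊆ T) ∧
    ∀ a ∈ T, ∀ b ∈ T, a * b = b * a → a * b ≠ 1 → centIn D (a * b) ⊆ T

/-- The group `G` has a normal set of involutions with an admissible subset. -/
def HasAdmissible (G : Type*) [Group G] : Prop :=
  ∃ D T : Set G, IsNormalInvolutionSet D ∧ Admissible D T

end Pool.Agent.Lib.MP_39b43f_al
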