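import Pool.Agent.Lib.MP_39b43f_al.Defs

/-!
# The two configurations in the reduction theorem
-/

namespace Pool.Agent.Lib.MP_39b43f_al

/-- Configuration (A): an involution `a` and normal subgroups `N < X` of `G` such that `X/N` is
abelian of odd order and inverted by `a`, the coset `aX` is central in `G/X`, and no element of `X`
outside `N` commutes with a product `b c` of two distinct commuting conjugates of `a`. -/
def InvertedSection (G : Type*) [Group G] : Prop :=
  ∃ (a : G) (N X : Subgroup G), orderOf a = 2 ∧ N.Normal ∧ X.Normal ∧ N < X ∧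
    Odd (N.relIndex X) ∧
    (∀ x ∈ X, ∀ y ∈ X, x⁻¹ * y⁻¹ * x * y ∈ N) ∧
    (∀ x ∈ X, a⁻¹ * x * a * x ∈ N) ∧
    (∀ g : G, a⁻¹ * g⁻¹ * a * g ∈ X) ∧
    ∀ b c : G, IsConj a b → IsConj a c → b ≠ c → b * c = c * b →
      ∀ x ∈ X, x * (b * c) = b * c * x → x ∈ N

/-- `M` is a maximal subgroup of `B` which meets `D`, contains every `k` for which some `d` in
`D ∩ M` has `k⁻¹ d k` in `M`, and contains `C_D(b c)` for any two distinct commuting elements
`b`, `c` of `D ∩ M`. -/
def Isolating {B : Type*} [Group B] (D : Set B) (M : Subgroup B) : Prop :=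
  IsCoatom M ∧ (∃ d ∈ D, d ∈ M) ∧
    (∀ d ∈ D, d ∈ M → ∀ k : B, k⁻¹ * d * k ∈ M → k ∈ M) ∧
    ∀ b ∈ D, ∀ c ∈ D, b ∈ M → c ∈ M → b ≠ c → b * c = c * b → centIn D (b * c) ⊆ M

/-- `B` has a nonabelian normal subgroup `L` which is simple with trivial centraliser (`B` is
almost simple), or is a minimal normal subgroup of odd order. -/
def NonabelianSocle (B : Type*) [Group B] : Prop :=
  ∃ L : Subgroup B, L.Normal ∧ (∃ x ∈ L, ∃ y ∈ L, x * y ≠ y * x) ∧
    ((IsSimpleGroup L ∧ Subgroup.centralizer (L : Set B) = ⊥) ∨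
      (Odd (Nat.card L) ∧ ∀ L' : Subgroup B, L'.Normal → L' ≤ L → L' = ⊥ ∨ L' = L))

/-- Configuration (B): an involution `a` of `G` and a subgroup `M` of the normal closure `K` of
`a`, with core `N` in `K`, such that `K/N` has a nonabelian socle as in `NonabelianSocle`, `M/N` is
isolating for the image in `K/N` of the class `D` of `a`, and `M` contains `C_D(b c)` for any two
distinct commuting elements `b`, `c` of `D ∩ M` with `b c` in `N`. -/
def LiftedPair (G : Type*) [Group G] : Prop :=
  ∃ (a : G) (M : Subgroup (Subgroup.normalClosure {a})), orderOf a = 2 ∧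
    NonabelianSocle (Subgroup.normalClosure {a} ⧸ M.normalCore) ∧
    Isolating ((QuotientGroup.mk' M.normalCore) ''
        {k : Subgroup.normalClosure {a} | IsConj a (k : G)})
      (M.map (QuotientGroup.mk' M.normalCore)) ∧
    ∀ b c : Subgroup.normalClosure {a}, IsConj a (b : G) → IsConj a (c : G) → b ∈ M → c ∈ M →
      b ≠ c → b * c = c * b → b * c ∈ M.normalCore →
        centIn {k : Subgroup.normalClosure {a} | IsConj a (k : G)} (b * c) ⊆ M

end Pool.Agent.Lib.MP_39b43f_al
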