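import Pool.Agent.Lib.MP_39b43f_al.Crit

/-!
# Quotients, groups of 2-length at most one, direct products
-/

namespace Pool.Agent.Lib.MP_39b43f_al

variable {G : Type*} [Group G]

lemma self_mem_cls (a : G) : a ∈ cls a := ⟨1, by group⟩

lemma self_mem_comp (D : Set G) (a : G) : a ∈ comp D a := Relation.ReflTransGen.refl

/-- disconnectedness of the class of `a` -/
def Disc (a : G) : Prop := orderOf a = 2 ∧ ∃ d ∈ cls a, d ∉ comp (cls a) a

lemma hasAdmissible_iff_disc [Finite G] : HasAdmissible G ↔ ∃ a : G, Disc a := by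
  constructor
  · rintro ⟨D, T, hD, hT⟩
    obtain ⟨a, ha⟩ := hT.1
    obtain ⟨d, hd, hdT⟩ := Set.exists_of_ssubset hT.2.1
    have haD := hT.2.1.1 ha
    have hcls : cls a = D := by
      ext x
      constructor
      · rintro ⟨g, rfl⟩
        exact conj_mem hD haD g
      · intro hx
        obtain ⟨c, hc⟩ := isConj_iff.1 (isConj_all hD hT a haD x hx)
        exact ⟨c⁻¹, by rw [inv_inv, hc]⟩
    refine ⟨a, hD.1 a haD, d, by rw [hcls]; exact hd, ?_⟩
    rw [hcls]
    intro h
    exact hdT (comp_subset_of_admissible hD hT ha h)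
  · rintro ⟨a, ha, d, hd, hda⟩
    have hD := cls_normal ha
    refine ⟨cls a, comp (cls a) a, hD, admissible_of_odd hD ⟨a, self_mem_comp _ _⟩ ?_ ?_⟩
    · exact ⟨comp_subset (self_mem_cls a), fun h => hda (h hd)⟩
    · intro x hx y hy hyc
      rw [← Nat.not_even_iff_odd]
      intro hev
      exact hyc (Relation.ReflTransGen.tail hx ⟨comp_subset (self_mem_cls a) hx, hy, hev⟩)

/-- The lifting lemma: let `f` be a surjective homomorphism and suppose that every element of
`cls a` with the same image as `a` is reachable from `a`. If the class of `f a` is connected then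
so is the class of `a`. -/
lemma lift_conn {K : Type*} [Group K] (f : G →* K) (hf : Function.Surjective f) {a : G}
    (hbase : ∀ x ∈ cls a, f x = f a → x ∈ comp (cls a) a)
    (hconn : ∀ y ∈ cls (f a), y ∈ comp (cls (f a)) (f a)) :
    ∀ x ∈ cls a, x ∈ comp (cls a) a := by
  have hmain : ∀ y : K, y ∈ comp (cls (f a)) (f a) → ∀ x ∈ cls a, f x = y →
      x ∈ comp (cls a) a := by
    intro y hy
    change Relation.ReflTransGen (Link (cls (f a))) (f a) y at hy
    induction hy with
    | refl => exact hbase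
    | @tail b c h1 h2 ih =>
      intro x hx hfx
      obtain ⟨⟨g, hg⟩, _, hev⟩ := h2
      obtain ⟨g', rfl⟩ := hf g
      have h3 : g'⁻¹ * a * g' ∈ comp (cls a) a := by
        apply ih _ ⟨g', rfl⟩
        rw [hg]; simp
      refine Relation.ReflTransGen.tail h3 ⟨⟨g', rfl⟩, hx, ?_⟩
      have h4 : f (g'⁻¹ * a * g' * x) = b * c := by
        rw [hg, ← hfx]; simp
      have h5 : orderOf (f (g'⁻¹ * a * g' * x)) ∣ orderOf (g'⁻¹ * a * g' * x) :=
        orderOf_map_dvd f _
      rw [h4] at h5
      rw [even_iff_two_dvd] at hev ⊢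
      exact hev.trans h5
  intro x hx
  apply hmain (f x) _ x hx rfl
  apply hconn
  obtain ⟨g, rfl⟩ := hx
  exact ⟨f g, by simp⟩

lemma exists_link_of_conn {a : G} (hac : a ∉ Subgroup.center G)
    (hconn : ∀ y ∈ cls a, y ∈ comp (cls a) a) : ∃ c, Link (cls a) a c := by
  obtain ⟨g, hg⟩ : ∃ g : G, g⁻¹ * a * g ≠ a := by
    by_contra hcon
    push Not at hcon
    apply hac
    rw [Subgroup.mem_center_iff]
    intro g
    have h1 := hcon g
    calc g * a = g * (g⁻¹ * a * g) := by rw [h1]
      _ = a * g := by group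
  have h1 := hconn (g⁻¹ * a * g) ⟨g, rfl⟩
  change Relation.ReflTransGen _ _ _ at h1
  rcases Relation.ReflTransGen.cases_head h1 with h | ⟨c, hc, _⟩
  · exact absurd h.symm hg
  · exact ⟨c, hc⟩

/-- Quotient theorem: if the class of `a` is disconnected, `f` is a surjective homomorphism not
killing `a` and `f a` is not central, then the class of `f a` is disconnected. -/
lemma disc_map {K : Type*} [Group K] (f : G →* K) (hf : Function.Surjective f) {a : G}
    (ha : Disc a) (h1 : f a ≠ 1) (hc : f a ∉ Subgroup.center K) : Disc (f a) := by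
  obtain ⟨ha2, d, hd, hda⟩ := ha
  refine ⟨?_, ?_⟩
  · have h2 : orderOf (f a) ∣ 2 := by rw [← ha2]; exact orderOf_map_dvd f a
    rcases (Nat.dvd_prime Nat.prime_two).1 h2 with h | h
    · exact absurd (orderOf_eq_one_iff.1 h) h1
    · exact h
  · by_contra hcon
    push Not at hcon
    apply hda
    apply lift_conn f hf _ hcon d hd
    intro x hx hfx
    obtain ⟨c, ⟨_, ⟨g, rfl⟩, hev⟩⟩ := exists_link_of_conn hc hcon
    obtain ⟨g', rfl⟩ := hf g
    have hlink : ∀ y ∈ cls a, f y = f a → Even (orderOf (y * (g'⁻¹ * a * g'))) := by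
      intro y _ hy
      have h5 : orderOf (f (y * (g'⁻¹ * a * g'))) ∣ orderOf (y * (g'⁻¹ * a * g')) :=
        orderOf_map_dvd f _
      have h6 : f (y * (g'⁻¹ * a * g')) = f a * ((f g')⁻¹ * f a * f g') := by
        rw [map_mul, hy]; simp
      rw [h6] at h5
      rw [even_iff_two_dvd] at hev ⊢
      exact hev.trans h5
    refine Relation.ReflTransGen.tail (b := g'⁻¹ * a * g')
      (Relation.ReflTransGen.single ⟨self_mem_cls a, ⟨g', rfl⟩,
        hlink a (self_mem_cls a) rfl⟩) (link_symm ⟨hx, ⟨g', rfl⟩, hlink x hx hfx⟩)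

/-- an odd order normal subgroup: lifting an involution -/
lemma exists_lift {N : Subgroup G} [N.Normal] [Finite G] (hN : Odd (Nat.card N)) {y : G ⧸ N}
    (hy : orderOf y = 2) : ∃ a : G, orderOf a = 2 ∧ (a : G ⧸ N) = y := by
  obtain ⟨g, rfl⟩ := QuotientGroup.mk_surjective y
  have h1 : g * g ∈ N := by
    rw [← QuotientGroup.eq_one_iff]
    have := mul_self hy
    exact this
  set m := Nat.card N with hm
  have h2 : (g * g) ^ m = 1 := by
    have : (⟨g * g, h1⟩ : N) ^ m = 1 := pow_card_eq_one'
    have := congrArg Subtype.val this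
    simpa using this
  have h3 : ((g ^ m : G) : G ⧸ N) = (g : G ⧸ N) := by
    obtain ⟨k, hk⟩ := hN
    rw [QuotientGroup.mk_pow, hk, pow_succ, pow_mul, pow_two, mul_self hy, one_pow, one_mul]
  refine ⟨g ^ m, ?_, h3⟩
  apply orderOf_eq_prime
  · rw [← pow_mul, mul_comm, pow_mul, pow_two]; exact h2
  · intro h4
    rw [h4] at h3
    have : orderOf ((g : G) : G ⧸ N) = 1 := by
      rw [← h3]; simp
    omega

lemma odd_of_odd_mod {N : Subgroup G} [N.Normal] [Finite G] (hN : Odd (Nat.card N)) {x : G}
    (hx : Odd (orderOf (x : G ⧸ N))) : Odd (orderOf x) := by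
  have h1 : x ^ orderOf (x : G ⧸ N) ∈ N := by
    rw [← QuotientGroup.eq_one_iff, QuotientGroup.mk_pow, pow_orderOf_eq_one]
  have h2 : (x ^ orderOf (x : G ⧸ N)) ^ Nat.card N = 1 := by
    have : (⟨_, h1⟩ : N) ^ Nat.card N = 1 := pow_card_eq_one'
    exact congrArg Subtype.val this
  rw [← pow_mul] at h2
  exact Odd.of_dvd_nat (hx.mul hN) (orderOf_dvd_of_pow_eq_one h2)

theorem odd_normal [Finite G] (N : Subgroup G) [N.Normal] (hN : Odd (Nat.card N)) :
    HasAdmissible G ↔ HasAdmissible (G ⧸ N) ∨
      ∃ a : G, orderOf a = 2 ∧ a ∉ Subgroup.center G ∧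
        (a : G ⧸ N) ∈ Subgroup.center (G ⧸ N) := by
  constructor
  · intro h
    obtain ⟨a, ha⟩ := hasAdmissible_iff_disc.1 h
    by_cases hc : (a : G ⧸ N) ∈ Subgroup.center (G ⧸ N)
    · right
      refine ⟨a, ha.1, ?_, hc⟩
      intro hac
      obtain ⟨_, d, ⟨g, rfl⟩, hd⟩ := ha
      apply hd
      have : g⁻¹ * a * g = a := by
        rw [mul_assoc, ← (Subgroup.mem_center_iff.1 hac g), ← mul_assoc, inv_mul_cancel, one_mul]
      rw [this]
      exact self_mem_comp _ _
    · left
      rw [hasAdmissible_iff_disc]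
      refine ⟨(a : G ⧸ N), ?_⟩
      apply disc_map (QuotientGroup.mk' N) (QuotientGroup.mk'_surjective N) ha _ hc
      intro h1
      apply hc
      change ((QuotientGroup.mk' N) a) ∈ _
      rw [h1]
      exact Subgroup.one_mem _
  · rintro (h | ⟨a, ha2, hac, hc⟩)
    · obtain ⟨y, hy2, d, hd, hdy⟩ := hasAdmissible_iff_disc.1 h
      obtain ⟨a, ha2, rfl⟩ := exists_lift hN hy2
      rw [hasAdmissible_iff_disc]
      obtain ⟨g, rfl⟩ := hd
      obtain ⟨g', rfl⟩ := QuotientGroup.mk_surjective g
      refine ⟨a, ha2, g'⁻¹ * a * g', ⟨g', rfl⟩, ?_⟩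
      intro hcon
      apply hdy
      have hgen : ∀ x : G, x ∈ comp (cls a) a → (x : G ⧸ N) ∈ comp (cls (a : G ⧸ N)) (a : G ⧸ N) := by
        intro x hx
        change Relation.ReflTransGen _ _ _ at hx
        induction hx with
        | refl => exact self_mem_comp _ _
        | @tail b c _ h2 ih =>
          obtain ⟨⟨g, hg⟩, ⟨k, hk⟩, hev⟩ := h2
          refine Relation.ReflTransGen.tail ih ⟨⟨g, by rw [hg]; simp⟩, ⟨k, by rw [hk]; simp⟩, ?_⟩
          by_contra hodd
          rw [Nat.not_even_iff_odd] at hodd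
          have : Odd (orderOf (b * c)) := odd_of_odd_mod hN (by simpa using hodd)
          rw [← Nat.not_even_iff_odd] at this
          exact this hev
      have := hgen _ hcon
      simpa using this
    · rw [hasAdmissible_iff]
      refine ⟨a, ⊥, ha2, hac, ?_, ?_⟩
      · intro h
        apply hac
        have : a ∈ (⊥ : Subgroup G) := by rw [h]; trivial
        rw [Subgroup.mem_bot.1 this]
        exact Subgroup.one_mem _
      · intro g _
        apply odd_of_odd_mod hN
        have h1 : ((a⁻¹ * g⁻¹ * a * g : G) : G ⧸ N) = 1 := by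
          have h2 := Subgroup.mem_center_iff.1 hc (g : G ⧸ N)
          simp only [QuotientGroup.mk_mul, QuotientGroup.mk_inv]
          rw [mul_assoc, ← h2]
          group
        rw [h1, orderOf_one]
        exact odd_one

theorem two_normal [Finite G] (N : Subgroup G) [N.Normal] (hN : IsPGroup 2 N)
    (h : HasAdmissible G) : HasAdmissible (G ⧸ N) := by
  obtain ⟨a, ha2, d, hd, hda⟩ := hasAdmissible_iff_disc.1 h
  have hD := cls_normal ha2
  have haN : a ∉ N := by
    intro haN
    apply hda
    apply comp_of_two_group hD hN (self_mem_cls a) hd haN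
    obtain ⟨g, rfl⟩ := hd
    have := (inferInstance : N.Normal).conj_mem a haN g⁻¹
    simpa using this
  rw [hasAdmissible_iff_disc]
  refine ⟨(a : G ⧸ N), ?_, ?_⟩
  · have h2 : orderOf (a : G ⧸ N) ∣ 2 := by
      rw [← ha2]; exact orderOf_map_dvd (QuotientGroup.mk' N) a
    rcases (Nat.dvd_prime Nat.prime_two).1 h2 with h | h
    · rw [orderOf_eq_one_iff, QuotientGroup.eq_one_iff] at h
      exact absurd h haN
    · exact h
  · by_contra hcon
    push Not at hcon
    apply hda
    apply lift_conn (QuotientGroup.mk' N) (QuotientGroup.mk'_surjective N) _ hcon d hd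
    intro x hx hfx
    by_cases hax : a * x = 1
    · have h2 := inv_self ha2
      have h3 : x = a := by rw [← h2]; exact (inv_eq_of_mul_eq_one_right hax).symm
      rw [h3]; exact self_mem_comp _ _
    · apply Relation.ReflTransGen.single
      refine ⟨self_mem_cls a, hx, ?_⟩
      have hmem : a * x ∈ N := by
        rw [← QuotientGroup.eq_one_iff, QuotientGroup.mk_mul]
        have h4 : (x : G ⧸ N) = (a : G ⧸ N) := hfx
        rw [h4, ← QuotientGroup.mk_mul, mul_self ha2]
        rfl
      obtain ⟨k, hk⟩ := hN ⟨a * x, hmem⟩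
      have h1 : (a * x) ^ 2 ^ k = 1 := by
        have := congrArg Subtype.val hk
        simpa using this
      have h2 := orderOf_dvd_of_pow_eq_one h1
      obtain ⟨j, _, hj⟩ := (Nat.dvd_prime_pow Nat.prime_two).1 h2
      rw [hj]
      rcases j with _ | j
      · rw [pow_zero, orderOf_eq_one_iff] at hj
        exact absurd hj hax
      · rw [pow_succ]
        exact even_two.mul_left _

/-- a normal `2`-subgroup of odd index excludes admissible pairs -/
theorem not_of_normal_sylow [Finite G] (Q : Subgroup G) [Q.Normal] (hQ : IsPGroup 2 Q)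
    (hodd : Odd Q.index) : ¬ HasAdmissible G := by
  intro h
  obtain ⟨a, ha2, d, hd, hda⟩ := hasAdmissible_iff_disc.1 h
  have hD := cls_normal ha2
  apply hda
  have hmem : ∀ x : G, orderOf x = 2 → x ∈ Q := by
    intro x hx
    rw [← QuotientGroup.eq_one_iff]
    have h1 : orderOf (x : G ⧸ Q) ∣ 2 := by
      rw [← hx]; exact orderOf_map_dvd (QuotientGroup.mk' Q) x
    have h2 : orderOf (x : G ⧸ Q) ∣ Q.index := by
      rw [Subgroup.index_eq_card]; exact orderOf_dvd_natCard _
    rcases (Nat.dvd_prime Nat.prime_two).1 h1 with h | h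
    · exact orderOf_eq_one_iff.1 h
    · rw [h] at h2
      rw [← Nat.not_even_iff_odd] at hodd
      exact absurd (even_iff_two_dvd.2 h2) hodd
  exact comp_of_two_group hD hQ (self_mem_cls a) hd (hmem a ha2) (hmem d (hD.1 d hd))

theorem two_length_one [Finite G] (N : Subgroup G) [N.Normal] (hN : Odd (Nat.card N))
    (Q : Subgroup (G ⧸ N)) [Q.Normal] (hQ : IsPGroup 2 Q) (hodd : Odd Q.index) :
    HasAdmissible G ↔ ∃ a : G, orderOf a = 2 ∧ a ∉ Subgroup.center G ∧
        (a : G ⧸ N) ∈ Subgroup.center (G ⧸ N) := by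
  rw [odd_normal N hN]
  constructor
  · rintro (h | h)
    · exact absurd h (not_of_normal_sylow Q hQ hodd)
    · exact h
  · exact Or.inr

/-- admissible pairs pass from a quotient of a product decomposition -/
theorem prod_iff {A B : Type*} [Group A] [Group B] [Finite A] [Finite B] :
    HasAdmissible (A × B) ↔ HasAdmissible A ∨ HasAdmissible B := by
  constructor
  · intro h
    obtain ⟨a, ha⟩ := hasAdmissible_iff_disc.1 h
    by_cases h1 : a.1 ∈ Subgroup.center A
    · by_cases h2 : a.2 ∈ Subgroup.center B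
      · exfalso
        obtain ⟨_, d, ⟨g, rfl⟩, hd⟩ := ha
        apply hd
        have : g⁻¹ * a * g = a := by
          have h3 := Subgroup.mem_center_iff.1 h1 g.1
          have h4 := Subgroup.mem_center_iff.1 h2 g.2
          apply Prod.ext
          · simp only [Prod.fst_mul, Prod.fst_inv]
            rw [mul_assoc, ← h3, ← mul_assoc, inv_mul_cancel, one_mul]
          · simp only [Prod.snd_mul, Prod.snd_inv]
            rw [mul_assoc, ← h4, ← mul_assoc, inv_mul_cancel, one_mul]
        rw [this]
        exact self_mem_comp _ _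
      · right
        rw [hasAdmissible_iff_disc]
        refine ⟨a.2, disc_map (MonoidHom.snd A B) Prod.snd_surjective ha ?_ h2⟩
        intro h3
        apply h2
        change (MonoidHom.snd A B) a ∈ _
        rw [h3]; exact Subgroup.one_mem _
    · left
      rw [hasAdmissible_iff_disc]
      refine ⟨a.1, disc_map (MonoidHom.fst A B) Prod.fst_surjective ha ?_ h1⟩
      intro h3
      apply h1
      change (MonoidHom.fst A B) a ∈ _
      rw [h3]; exact Subgroup.one_mem _
  · rintro (h | h)
    · rw [hasAdmissible_iff] at h ⊢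
      obtain ⟨a, M, ha2, hac, hM, hodd⟩ := h
      refine ⟨(a, 1), M.prod ⊤, ?_, ?_, ?_, ?_⟩
      · rw [Prod.orderOf_mk, orderOf_one, ha2]; rfl
      · intro hc
        apply hac
        rw [Subgroup.mem_center_iff] at hc ⊢
        intro g
        have := hc (g, 1)
        exact congrArg Prod.fst this
      · intro htop
        apply hM
        rw [eq_top_iff]
        intro g _
        have : ((g, 1) : A × B) ∈ M.prod ⊤ := by rw [htop]; trivial
        exact (Subgroup.mem_prod.1 this).1
      · intro g hg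
        have hg1 : g.1 ∉ M := fun h => hg (Subgroup.mem_prod.2 ⟨h, trivial⟩)
        have h1 : ((a, 1) : A × B)⁻¹ * g⁻¹ * (a, 1) * g = (a⁻¹ * g.1⁻¹ * a * g.1, 1) := by
          apply Prod.ext <;> simp
        rw [h1, Prod.orderOf_mk, orderOf_one, Nat.lcm_one_right]
        exact hodd g.1 hg1
    · rw [hasAdmissible_iff] at h ⊢
      obtain ⟨b, M, hb2, hbc, hM, hodd⟩ := h
      refine ⟨(1, b), Subgroup.prod ⊤ M, ?_, ?_, ?_, ?_⟩
      · rw [Prod.orderOf_mk, orderOf_one, hb2]; rfl
      · intro hc
        apply hbc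
        rw [Subgroup.mem_center_iff] at hc ⊢
        intro g
        have := hc (1, g)
        exact congrArg Prod.snd this
      · intro htop
        apply hM
        rw [eq_top_iff]
        intro g _
        have : ((1, g) : A × B) ∈ Subgroup.prod ⊤ M := by rw [htop]; trivial
        exact (Subgroup.mem_prod.1 this).2
      · intro g hg
        have hg1 : g.2 ∉ M := fun h => hg (Subgroup.mem_prod.2 ⟨trivial, h⟩)
        have h1 : ((1, b) : A × B)⁻¹ * g⁻¹ * (1, b) * g = (1, b⁻¹ * g.2⁻¹ * b * g.2) := by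
          apply Prod.ext <;> simp
        rw [h1, Prod.orderOf_mk, orderOf_one, Nat.lcm_one_left]
        exact hodd g.2 hg1

end Pool.Agent.Lib.MP_39b43f_al
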