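import Pool.Agent.Lib.MP_39b43f_al.Quot

/-!
# A maximal subgroup attached to an admissible subset
-/

namespace Pool.Agent.Lib.MP_39b43f_al

variable {G : Type*} [Group G]

/-- an involution of `M` is conjugate in `M` into a subgroup `H ≤ M` of odd index -/
lemma exists_conj_mem [Finite G] {H M : Subgroup G} (hHM : H ≤ M) (hodd : Odd H.index) {d : G}
    (hd : orderOf d = 2) (hdM : d ∈ M) : ∃ m ∈ M, m⁻¹ * d * m ∈ H := by
  have hidx : ¬ 2 ∣ Nat.card (M ⧸ H.subgroupOf M) := by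
    have h1 : (H.subgroupOf M).index ∣ H.index := by
      have := Subgroup.relIndex_mul_index hHM
      exact ⟨M.index, by rw [← this]; rfl⟩
    rw [← Subgroup.index_eq_card]
    intro h2
    have h3 := h2.trans h1
    rw [← Nat.not_even_iff_odd, even_iff_two_dvd] at hodd
    exact hodd h3
  have hp : IsPGroup 2 (Subgroup.zpowers (⟨d, hdM⟩ : M)) := by
    apply IsPGroup.of_card (n := 1)
    rw [Nat.card_zpowers, pow_one, ← Subgroup.orderOf_coe]
    exact hd
  obtain ⟨x, hx⟩ := hp.nonempty_fixed_point_of_prime_not_dvd_card (M ⧸ H.subgroupOf M) hidx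
  obtain ⟨m, rfl⟩ := QuotientGroup.mk_surjective x
  rw [MulAction.mem_fixedPoints] at hx
  have h1 := hx ⟨⟨d, hdM⟩, Subgroup.mem_zpowers _⟩
  have h2 : ((⟨d, hdM⟩ * m : M) : M ⧸ H.subgroupOf M) = (m : M ⧸ H.subgroupOf M) := h1
  refine ⟨m, m.2, ?_⟩
  have h3 : (m : M ⧸ H.subgroupOf M) = ((⟨d, hdM⟩ * m : M) : M ⧸ H.subgroupOf M) := h2.symm
  rw [QuotientGroup.eq] at h3
  rw [Subgroup.mem_subgroupOf] at h3
  simpa [mul_assoc] using h3

/-- A maximal subgroup `M` which contains, with an element of `D`, everything which moves it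
inside `M`, and all elements of `D` commuting with a product of two commuting elements of
`D` in `M`. -/
structure Pt (D : Set G) (M : Subgroup G) : Prop where
  coatom : IsCoatom M
  ne : ∃ d ∈ D, d ∈ M
  ctl : ∀ d ∈ D, d ∈ M → ∀ g : G, g⁻¹ * d * g ∈ M → g ∈ M
  prd : ∀ b ∈ D, ∀ c ∈ D, b ∈ M → c ∈ M → b * c = c * b → b * c ≠ 1 →
    ∀ d ∈ D, d * (b * c) = (b * c) * d → d ∈ M

theorem exists_pt [Finite G] {D T : Set G} (hD : IsNormalInvolutionSet D)
    (hT : Admissible D T) (hgen : Subgroup.closure D = ⊤) :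
    ∃ M : Subgroup G, Pt D M ∧ Odd M.index := by
  obtain ⟨H, hH1, hH2, _, hH4, hH5, hH6⟩ := exists_subgroup hD hT
  obtain ⟨M, hM, hHM⟩ := (eq_top_or_exists_le_coatom H).resolve_left hH1
  obtain ⟨a, haD, haH⟩ := hH4.1
  have hctl : ∀ d ∈ D, d ∈ M → ∀ g : G, g⁻¹ * d * g ∈ M → g ∈ M := by
    intro d hd hdM g hg
    obtain ⟨m, hm, hmH⟩ := exists_conj_mem hHM hH2 (hD.1 d hd) hdM
    obtain ⟨m', hm', hmH'⟩ := exists_conj_mem hHM hH2 (hD.1 _ (conj_mem hD hd g)) hg
    have h1 := hH5 _ (conj_mem hD hd m) hmH (m⁻¹ * g * m')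
    have h2 : (m⁻¹ * g * m')⁻¹ * (m⁻¹ * d * m) * (m⁻¹ * g * m') = m'⁻¹ * (g⁻¹ * d * g) * m' := by
      group
    rw [h2] at h1
    have h3 := hHM (h1 hmH')
    have h4 : g = m * (m⁻¹ * g * m') * m'⁻¹ := by group
    rw [h4]
    exact M.mul_mem (M.mul_mem hm h3) (M.inv_mem hm')
  have hadm : Admissible D (D ∩ (M : Set G)) := by
    apply admissible_of_odd (T := D ∩ (M : Set G)) hD ⟨a, haD, hHM haH⟩
    · refine ⟨Set.inter_subset_left, ?_⟩
      intro h
      apply hM.1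
      rw [eq_top_iff, ← hgen, Subgroup.closure_le]
      exact fun x hx => (h hx).2
    · rintro b ⟨hb, hbM⟩ d hd hdM
      have hbM' : b ∈ M := hbM
      obtain ⟨m, hm, hmH⟩ := exists_conj_mem hHM hH2 (hD.1 b hb) hbM'
      have h1 := odd_of_admissible hD hH4 (a := m⁻¹ * b * m) (d := m⁻¹ * d * m)
        ⟨conj_mem hD hb m, hmH⟩ (conj_mem hD hd m) ?_
      · have h2 : m⁻¹ * b * m * (m⁻¹ * d * m) = m⁻¹ * (b * d) * m := by group
        rwa [h2, orderOf_cj] at h1
      · rintro ⟨_, h3⟩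
        apply hdM
        refine ⟨hd, ?_⟩
        have h4 : m⁻¹ * d * m ∈ M := hHM h3
        have h5 : d = m * (m⁻¹ * d * m) * m⁻¹ := by group
        change d ∈ M
        rw [h5]
        exact M.mul_mem (M.mul_mem hm h4) (M.inv_mem hm)
  refine ⟨M, ⟨hM, ⟨a, haD, hHM haH⟩, hctl, ?_⟩,
    Odd.of_dvd_nat hH2 (Subgroup.index_dvd_of_le hHM)⟩
  intro b hb c hc hbM hcM hbc hne d hd hcomm
  exact (hadm.2.2.2 b ⟨hb, hbM⟩ c ⟨hc, hcM⟩ hbc hne ⟨hd, hcomm⟩).2

/-- conversely such a subgroup gives an admissible subset -/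
theorem admissible_of_pt {D : Set G} {M : Subgroup G} (hgen : Subgroup.closure D = ⊤)
    (hM : Pt D M) : Admissible D (D ∩ (M : Set G)) := by
  obtain ⟨a, haD, haM⟩ := hM.ne
  refine ⟨⟨a, haD, haM⟩, ⟨Set.inter_subset_left, ?_⟩, ?_, ?_⟩
  · intro h
    apply hM.coatom.1
    rw [eq_top_iff, ← hgen, Subgroup.closure_le]
    exact fun x hx => (h hx).2
  · rintro b ⟨hb, hbM⟩ d ⟨hd, hcomm⟩
    refine ⟨hd, hM.ctl b hb hbM d ?_⟩
    have : d⁻¹ * b * d = b := by rw [mul_assoc, ← hcomm]; group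
    rw [this]
    exact hbM
  · rintro b ⟨hb, hbM⟩ c ⟨hc, hcM⟩ hbc hne d ⟨hd, hcomm⟩
    exact ⟨hd, hM.prd b hb c hc hbM hcM hbc hne d hd hcomm⟩

/-- the elements of `D` inside a subgroup -/
def res (K : Subgroup G) (D : Set G) : Set K := {k | (k : G) ∈ D}

lemma res_normal {D : Set G} (hD : IsNormalInvolutionSet D) (K : Subgroup G) :
    IsNormalInvolutionSet (res K D) := by
  constructor
  · intro d hd
    rw [← Subgroup.orderOf_coe]
    exact hD.1 _ hd
  · intro g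
    ext b
    constructor
    · rintro ⟨d, hd, rfl⟩
      exact conj_mem hD hd (g : G)
    · intro hb
      refine ⟨g * b * g⁻¹, ?_, by group⟩
      change ((g * b * g⁻¹ : K) : G) ∈ D
      have := conj_mem hD hb ((g : G)⁻¹)
      simpa using this

lemma res_admissible {D T : Set G} {K : Subgroup G} (hDK : D ⊆ K)
    (hT : Admissible D T) : Admissible (res K D) (res K T) := by
  obtain ⟨⟨t, ht⟩, ⟨hTD, hne⟩, h1, h2⟩ := hT
  refine ⟨⟨⟨t, hDK (hTD ht)⟩, ht⟩, ⟨fun x hx => hTD hx, ?_⟩, ?_, ?_⟩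
  · intro h
    apply hne
    intro x hx
    have : (⟨x, hDK hx⟩ : K) ∈ res K T := h hx
    exact this
  · rintro a ha d ⟨hd, hcomm⟩
    exact h1 a ha ⟨hd, congrArg Subtype.val hcomm⟩
  · rintro a ha b hb hab hne1 d ⟨hd, hcomm⟩
    refine h2 a ha b hb (congrArg Subtype.val hab) ?_ ⟨hd, congrArg Subtype.val hcomm⟩
    intro h
    apply hne1
    exact Subtype.ext h

lemma res_closure {D : Set G} : Subgroup.closure (res (Subgroup.closure D) D) = ⊤ := by
  have h := Subgroup.closure_closure_coe_preimage (k := D)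
  exact h

lemma isConj_of_res {K : Subgroup G} {k l : K} (h : IsConj k l) :
    IsConj (k : G) (l : G) := by
  obtain ⟨c, hc⟩ := isConj_iff.1 h
  rw [isConj_iff]
  exact ⟨c, by rw [← hc]; simp⟩

end Pool.Agent.Lib.MP_39b43f_al
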