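import Pool.Agent.Lib.MP_39b43f_al.Red1

/-!
# The primitive quotient, abelian case
-/

namespace Pool.Agent.Lib.MP_39b43f_al

variable {G : Type*} [Group G]

/-- the configuration in a core-free situation -/
structure Prim (D : Set G) (M : Subgroup G) : Prop where
  inv : ∀ d ∈ D, d * d = 1
  conj : ∀ d ∈ D, ∀ g : G, g⁻¹ * d * g ∈ D
  gen : Subgroup.closure D = ⊤
  tr : ∀ b ∈ D, ∃ g : G, g⁻¹ * b * g ∈ M
  coatom : IsCoatom M
  core : M.normalCore = ⊥
  odd : Odd M.index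
  ne : ∃ d ∈ D, d ∈ M
  cls : ∀ b ∈ D, ∀ c ∈ D, ∃ g : G, c = g⁻¹ * b * g
  ctl : ∀ d ∈ D, d ∈ M → ∀ g : G, g⁻¹ * d * g ∈ M → g ∈ M

lemma le_bot_of_core {D : Set G} {M : Subgroup G} (hP : Prim D M) {A : Subgroup G} (hA : A.Normal)
    (hAM : A ≤ M) : A = ⊥ := by
  rw [eq_bot_iff, ← hP.core]
  exact Subgroup.normal_le_normalCore.2 hAM

lemma sup_top_of_prim {D : Set G} {M : Subgroup G} (hP : Prim D M) {A : Subgroup G}
    (hA : A.Normal) (hA1 : A ≠ ⊥) : A ⊔ M = ⊤ := by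
  apply hP.coatom.2
  rw [lt_iff_le_and_ne]
  refine ⟨le_sup_right, ?_⟩
  intro h
  apply hA1
  apply le_bot_of_core hP hA
  rw [h]
  exact le_sup_left

lemma exists_mul_of_sup {M A : Subgroup G} (hA : A.Normal) (h : A ⊔ M = ⊤) (g : G) :
    ∃ m ∈ M, ∃ x ∈ A, g = m * x := by
  have h1 : (g : G) ∈ ((M ⊔ A : Subgroup G) : Set G) := by
    rw [sup_comm, h]; trivial
  rw [Subgroup.mul_normal] at h1
  obtain ⟨m, hm, x, hx, hmx⟩ := Set.mem_mul.1 h1
  exact ⟨m, hm, x, hx, hmx.symm⟩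

/-- abelian normal subgroups in the primitive configuration -/
theorem prim_abelian {D : Set G} {M : Subgroup G} (hP : Prim D M) {A : Subgroup G}
    (hA : A.Normal) (hA1 : A ≠ ⊥) (hab : ∀ x ∈ A, ∀ y ∈ A, x * y = y * x) :
    (A ⊓ M = ⊥) ∧ (∀ b ∈ D, ∀ x ∈ A, b⁻¹ * x * b = x⁻¹) ∧ (∀ b ∈ D, ∀ c ∈ D, b * c ∈ A) ∧
      (∀ b ∈ D, b ∉ A) ∧ (∀ x ∈ A, x * x = 1 → x = 1) := by
  have htop := sup_top_of_prim hP hA hA1
  have hmul := exists_mul_of_sup hA htop
  -- `A ⊓ M` is normal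
  have hint : A ⊓ M = ⊥ := by
    apply le_bot_of_core hP _ inf_le_right
    constructor
    rintro n ⟨hnA, hnM⟩ g
    obtain ⟨m, hm, x, hx, rfl⟩ := hmul g
    have h1 : m * x * n * (m * x)⁻¹ = m * n * m⁻¹ := by
      have : x * n * x⁻¹ = n := by rw [hab x hx n hnA]; group
      calc m * x * n * (m * x)⁻¹ = m * (x * n * x⁻¹) * m⁻¹ := by group
        _ = m * n * m⁻¹ := by rw [this]
    rw [h1]
    exact ⟨hA.conj_mem n hnA m, M.mul_mem (M.mul_mem hm hnM) (M.inv_mem hm)⟩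
  have hmemM : ∀ x ∈ A, x ∈ M → x = 1 := by
    intro x hx hxM
    have : x ∈ A ⊓ M := ⟨hx, hxM⟩
    rw [hint] at this
    exact Subgroup.mem_bot.1 this
  -- elements of `D ∩ M` invert `A`
  have hinv0 : ∀ d ∈ D, d ∈ M → ∀ x ∈ A, d⁻¹ * x * d = x⁻¹ := by
    intro d hd hdM x hx
    have hd2 := hP.inv d hd
    have hdi : d⁻¹ = d := inv_eq_of_mul_eq_one_left hd2
    have hxd : d⁻¹ * x * d ∈ A := by
      have := hA.conj_mem x hx d⁻¹
      rwa [inv_inv] at this
    have hy : x * (d⁻¹ * x * d) ∈ A := A.mul_mem hx hxd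
    have h1 : (x * (d⁻¹ * x * d))⁻¹ * d * (x * (d⁻¹ * x * d)) = d := by
      have h2 : d * (x * (d⁻¹ * x * d)) = (d⁻¹ * x * d) * x * d := by
        rw [hdi]
        calc d * (x * (d * x * d)) = (d * x * d) * x * d := by group
          _ = _ := rfl
      rw [mul_assoc, h2, hab _ hxd x hx]
      group
    have h3 := hP.ctl d hd hdM (x * (d⁻¹ * x * d)) (by rw [h1]; exact hdM)
    have h4 := hmemM _ hy h3
    exact eq_inv_of_mul_eq_one_right h4
  have hinv : ∀ b ∈ D, ∀ x ∈ A, b⁻¹ * x * b = x⁻¹ := by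
    intro b hb x hx
    obtain ⟨g, hg⟩ := hP.tr b hb
    have hxg : g⁻¹ * x * g ∈ A := by
      have := hA.conj_mem x hx g⁻¹
      rwa [inv_inv] at this
    have h1 := hinv0 _ (hP.conj b hb g) hg _ hxg
    have h2 : (g⁻¹ * b * g)⁻¹ * (g⁻¹ * x * g) * (g⁻¹ * b * g) = g⁻¹ * (b⁻¹ * x * b) * g := by group
    have h3 : (g⁻¹ * x * g)⁻¹ = g⁻¹ * x⁻¹ * g := by group
    rw [h2, h3] at h1
    exact mul_left_cancel (mul_right_cancel h1)
  -- elements of `D ∩ M` are centralised by `M`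
  have hcent : ∀ d ∈ D, d ∈ M → ∀ m ∈ M, m⁻¹ * d * m = d := by
    intro d hd hdM m hm
    set C : Subgroup G := Subgroup.centralizer (A : Set G) with hC
    have hCn : C.Normal := by
      rw [hC]
      infer_instance
    have hCM : C ⊓ M = ⊥ := by
      apply le_bot_of_core hP _ inf_le_right
      constructor
      rintro n ⟨hnC, hnM⟩ g
      obtain ⟨m, hm, x, hx, rfl⟩ := hmul g
      have h1 : m * x * n * (m * x)⁻¹ = m * n * m⁻¹ := by
        have h2 : x * n = n * x := (Subgroup.mem_centralizer_iff.1 hnC) x hx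
        calc m * x * n * (m * x)⁻¹ = m * (x * n) * x⁻¹ * m⁻¹ := by group
          _ = m * n * m⁻¹ := by rw [h2]; group
      rw [h1]
      exact ⟨hCn.conj_mem n hnC m, M.mul_mem (M.mul_mem hm hnM) (M.inv_mem hm)⟩
    have h3 : d⁻¹ * (m⁻¹ * d * m) ∈ C ⊓ M := by
      refine ⟨?_, M.mul_mem (M.inv_mem hdM) (M.mul_mem (M.mul_mem (M.inv_mem hm) hdM) hm)⟩
      change _ ∈ Subgroup.centralizer (A : Set G)
      rw [Subgroup.mem_centralizer_iff]
      intro x hx
      have hx' : x ∈ A := hx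
      have h4 := hinv _ (hP.conj d hd m) x hx'
      have h5 := hinv d hd _ hx'
      have h6 := hinv d hd _ (A.inv_mem hx')
      set e := m⁻¹ * d * m with he
      -- conjugating `x` by `d⁻¹ e`
      have h7 : (d⁻¹ * e)⁻¹ * x * (d⁻¹ * e) = x := by
        have hd2 := hP.inv d hd
        have hdi : d⁻¹ = d := inv_eq_of_mul_eq_one_left hd2
        calc (d⁻¹ * e)⁻¹ * x * (d⁻¹ * e) = e⁻¹ * (d * x * d⁻¹) * e := by group
          _ = e⁻¹ * (d⁻¹ * x * d) * e := by rw [hdi]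
          _ = e⁻¹ * x⁻¹ * e := by rw [h5]
          _ = (e⁻¹ * x * e)⁻¹ := by group
          _ = x := by rw [h4, inv_inv]
      calc x * (d⁻¹ * e) = (d⁻¹ * e) * ((d⁻¹ * e)⁻¹ * x * (d⁻¹ * e)) := by group
        _ = (d⁻¹ * e) * x := by rw [h7]
    rw [hCM, Subgroup.mem_bot] at h3
    exact (eq_of_inv_mul_eq_one h3).symm
  obtain ⟨a, haD, haM⟩ := hP.ne
  have haa : a⁻¹ = a := inv_eq_of_mul_eq_one_left (hP.inv a haD)
  have hcos : ∀ b ∈ D, a * b ∈ A := by
    intro b hb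
    obtain ⟨g, rfl⟩ := hP.cls a haD b hb
    obtain ⟨m, hm, x, hx, rfl⟩ := hmul g
    have h1 : a * ((m * x)⁻¹ * a * (m * x)) = x * x := by
      have h2 := hcent a haD haM m hm
      have h3 := hinv0 a haD haM _ (A.inv_mem hx)
      calc a * ((m * x)⁻¹ * a * (m * x)) = a * (x⁻¹ * (m⁻¹ * a * m) * x) := by group
        _ = a * (x⁻¹ * a * x) := by rw [h2]
        _ = (a⁻¹ * x⁻¹ * a) * x := by rw [haa]; group
        _ = x * x := by rw [h3, inv_inv]
    rw [h1]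
    exact A.mul_mem hx hx
  refine ⟨hint, hinv, ?_, ?_, ?_⟩
  · intro b hb c hc
    have h1 := hcos b hb
    have h2 := hcos c hc
    have h3 : b * c = (a * b)⁻¹ * (a * c) := by
      rw [mul_inv_rev, inv_eq_of_mul_eq_one_left (hP.inv b hb), haa]
      have : b * a * (a * c) = b * (a * a) * c := by group
      rw [this, hP.inv a haD, mul_one]
    rw [h3]
    exact A.mul_mem (A.inv_mem h1) h2
  · intro b hb hbA
    have haA : a ∈ A := by
      have := A.mul_mem (hcos b hb) (A.inv_mem hbA)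
      rwa [mul_inv_cancel_right] at this
    have ha1 := hmemM a haA haM
    -- then `D = {1}` and `G` is trivial
    apply hP.coatom.1
    rw [eq_top_iff, ← hP.gen, Subgroup.closure_le]
    intro c hc
    obtain ⟨g, rfl⟩ := hP.cls a haD c hc
    change g⁻¹ * a * g ∈ M
    rw [ha1, mul_one, inv_mul_cancel]
    exact M.one_mem
  · intro x hx hxx
    have h1 := hinv0 a haD haM x hx
    have h2 : x⁻¹ = x := inv_eq_of_mul_eq_one_left hxx
    rw [h2] at h1
    have h3 : x⁻¹ * a * x = a := by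
      calc x⁻¹ * a * x = x⁻¹ * a * (a⁻¹ * x * a) := by rw [h1]
        _ = a := by group
    have h4 := hP.ctl a haD haM x (by rw [h3]; exact haM)
    exact hmemM x hx h4

end Pool.Agent.Lib.MP_39b43f_al
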