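import Pool.Agent.Lib.MP_39b43f_al.Red2

/-!
# Passing to the primitive quotient
-/

namespace Pool.Agent.Lib.MP_39b43f_al

variable {G : Type*} [Group G]

lemma core_le (M : Subgroup G) : M.normalCore ≤ M := Subgroup.normalCore_le M

lemma mem_of_map_mem {M : Subgroup G} {x : G}
    (h : (x : G ⧸ M.normalCore) ∈ M.map (QuotientGroup.mk' M.normalCore)) : x ∈ M := by
  obtain ⟨y, hy, hyx⟩ := Subgroup.mem_map.1 h
  have h1 : (y : G ⧸ M.normalCore) = (x : G ⧸ M.normalCore) := hyx
  rw [QuotientGroup.eq] at h1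
  have h2 := core_le M h1
  have h3 : x = y * (y⁻¹ * x) := by group
  rw [h3]
  exact M.mul_mem hy h2

lemma comap_map_core (M : Subgroup G) :
    (M.map (QuotientGroup.mk' M.normalCore)).comap (QuotientGroup.mk' M.normalCore) = M := by
  ext x
  constructor
  · intro h
    exact mem_of_map_mem h
  · intro h
    exact Subgroup.mem_map_of_mem _ h

theorem prim_of_pt [Finite G] {D : Set G} {M : Subgroup G} (hD : IsNormalInvolutionSet D)
    (hgen : Subgroup.closure D = ⊤) (hcls : ∀ b ∈ D, ∀ c ∈ D, IsConj b c)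
    (hM : Pt D M) (hodd : Odd M.index) :
    Prim ((QuotientGroup.mk' M.normalCore) '' D) (M.map (QuotientGroup.mk' M.normalCore)) := by
  set f := QuotientGroup.mk' M.normalCore with hf
  have hsurj : Function.Surjective f := QuotientGroup.mk'_surjective _
  have hcomap : (M.map f).comap f = M := comap_map_core M
  obtain ⟨a, haD, haM⟩ := hM.ne
  refine ⟨?_, ?_, ?_, ?_, ?_, ?_, ?_, ?_, ?_, ?_⟩
  · rintro _ ⟨d, hd, rfl⟩
    rw [← map_mul, mul_self (hD.1 d hd), map_one]
  · rintro _ ⟨d, hd, rfl⟩ g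
    obtain ⟨g, rfl⟩ := hsurj g
    exact ⟨g⁻¹ * d * g, conj_mem hD hd g, by simp⟩
  · rw [← MonoidHom.map_closure, hgen, ← MonoidHom.range_eq_map, MonoidHom.range_eq_top]
    exact hsurj
  · rintro _ ⟨b, hb, rfl⟩
    obtain ⟨c, hc⟩ := isConj_iff.1 (hcls b hb a haD)
    refine ⟨f c⁻¹, ?_⟩
    have : (f c⁻¹)⁻¹ * f b * f c⁻¹ = f a := by
      rw [← hc]; simp
    rw [this]
    exact Subgroup.mem_map_of_mem f haM
  · constructor
    · intro h
      apply hM.coatom.1
      rw [← hcomap, h, Subgroup.comap_top]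
    · intro B hB
      have h1 : M < B.comap f := by
        have h2 : (M.map f).comap f < B.comap f := by
          rw [Subgroup.comap_lt_comap_of_surjective hsurj]
          exact hB
        rwa [hcomap] at h2
      have h3 := hM.coatom.2 _ h1
      rw [eq_top_iff]
      intro x _
      obtain ⟨y, rfl⟩ := hsurj x
      have : y ∈ B.comap f := by rw [h3]; trivial
      exact this
  · rw [eq_bot_iff]
    intro x hx
    obtain ⟨y, rfl⟩ := hsurj x
    have h1 : (((M.map f).normalCore).comap f) ≤ M.normalCore := by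
      rw [Subgroup.normal_le_normalCore]
      intro z hz
      have : f z ∈ M.map f := core_le _ hz
      rw [← hcomap]
      exact this
    have h2 : y ∈ M.normalCore := h1 hx
    rw [Subgroup.mem_bot]
    exact (QuotientGroup.eq_one_iff y).2 h2
  · rw [← hcomap, Subgroup.index_comap_of_surjective _ hsurj] at hodd
    exact hodd
  · exact ⟨f a, ⟨a, haD, rfl⟩, Subgroup.mem_map_of_mem f haM⟩
  · rintro _ ⟨b, hb, rfl⟩ _ ⟨c, hc, rfl⟩
    obtain ⟨g, hg⟩ := isConj_iff.1 (hcls b hb c hc)
    refine ⟨f g⁻¹, ?_⟩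
    rw [← hg]; simp
  · rintro _ ⟨d, hd, rfl⟩ hdM g hg
    obtain ⟨g, rfl⟩ := hsurj g
    have h1 : d ∈ M := mem_of_map_mem hdM
    have h2 : g⁻¹ * d * g ∈ M := by
      apply mem_of_map_mem
      have : f (g⁻¹ * d * g) = (f g)⁻¹ * f d * f g := by simp
      rw [← this] at hg
      exact hg
    exact Subgroup.mem_map_of_mem f (hM.ctl d hd h1 g h2)

end Pool.Agent.Lib.MP_39b43f_al
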