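import Pool.Agent.Lib.MP_39b43f_al.Red3

/-!
# The primitive configuration, nonabelian case
-/

namespace Pool.Agent.Lib.MP_39b43f_al

variable {G : Type*} [Group G]

lemma odd_sup [Finite G] {P Q : Subgroup G} (hQ : Q.Normal) (h1 : Odd (Nat.card P))
    (h2 : Odd (Nat.card Q)) : Odd (Nat.card (P ⊔ Q : Subgroup G)) := by
  have h3 : Q.relIndex (P ⊔ Q) = Q.relIndex P := Subgroup.relIndex_sup_right _ _
  have h4 : Q.relIndex P ∣ Nat.card P := Subgroup.relIndex_dvd_card _ _
  have h5 : Nat.card Q * Q.relIndex (P ⊔ Q) = Nat.card (P ⊔ Q : Subgroup G) := by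
    have h6 := Subgroup.card_mul_index (Q.subgroupOf (P ⊔ Q))
    have h7 : Nat.card (Q.subgroupOf (P ⊔ Q)) = Nat.card Q :=
      Nat.card_congr (Subgroup.subgroupOfEquivOfLe le_sup_right).toEquiv
    rw [h7] at h6
    exact h6
  rw [← h5, h3]
  exact h2.mul (Odd.of_dvd_nat h1 h4)

/-- the largest normal subgroup of odd order -/
lemma exists_odd_core (G : Type*) [Group G] [Finite G] :
    ∃ P : Subgroup G, P.Normal ∧ Odd (Nat.card P) ∧
      ∀ Q : Subgroup G, Q.Normal → Odd (Nat.card Q) → Q ≤ P := by
  have hfin : {P : Subgroup G | P.Normal ∧ Odd (Nat.card P)}.Finite := Set.toFinite _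
  have hne : {P : Subgroup G | P.Normal ∧ Odd (Nat.card P)}.Nonempty :=
    ⟨⊥, inferInstance, by simp⟩
  obtain ⟨P, ⟨hP1, hP2⟩, hmax⟩ := Set.exists_max_image _ (fun P : Subgroup G => Nat.card P) hfin hne
  refine ⟨P, hP1, hP2, ?_⟩
  intro Q hQ1 hQ2
  have h1 : (P ⊔ Q).Normal := by infer_instance
  have h2 := odd_sup (P := P) hQ1 hP2 hQ2
  have h3 := hmax (P ⊔ Q) ⟨h1, h2⟩
  have h4 : P = P ⊔ Q := Subgroup.eq_of_le_of_card_ge le_sup_left h3
  rw [h4]
  exact le_sup_right

lemma exists_minimal_of [Finite G] {p : Subgroup G → Prop} {L : Subgroup G} (hL : p L) :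
    ∃ L' : Subgroup G, L' ≤ L ∧ p L' ∧ ∀ L'' : Subgroup G, p L'' → L'' ≤ L' → L'' = L' := by
  have hwf : WellFounded ((· < ·) : Subgroup G → Subgroup G → Prop) := wellFounded_lt
  obtain ⟨m, ⟨hm1, hm2⟩, hm3⟩ := hwf.has_min {L' | L' ≤ L ∧ p L'} ⟨L, le_refl _, hL⟩
  refine ⟨m, hm1, hm2, ?_⟩
  intro L'' h1 h2
  by_contra hne
  exact hm3 L'' ⟨h2.trans hm1, h1⟩ (lt_of_le_of_ne h2 hne)

/-- minimal normal subgroups -/
def MinNormal (L : Subgroup G) : Prop :=
  L.Normal ∧ L ≠ ⊥ ∧ ∀ L' : Subgroup G, L'.Normal → L' ≠ ⊥ → L' ≤ L → L' = L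

lemma MinNormal.map {L : Subgroup G} (hL : MinNormal L) (e : G ≃* G) :
    MinNormal (L.map e.toMonoidHom) := by
  obtain ⟨h1, h2, h3⟩ := hL
  refine ⟨h1.map _ e.surjective, ?_, ?_⟩
  · intro h
    apply h2
    rw [Subgroup.map_eq_bot_iff_of_injective _ e.injective] at h
    exact h
  · intro L' hn hne hle
    have h4 : (L'.comap e.toMonoidHom).Normal := hn.comap _
    have h5 : L'.comap e.toMonoidHom ≤ L := by
      intro x hx
      obtain ⟨y, hy, hyx⟩ := hle hx
      have : y = x := e.injective hyx
      rwa [← this]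
    have h6 : L'.comap e.toMonoidHom ≠ ⊥ := by
      intro h
      apply hne
      rw [eq_bot_iff]
      intro x hx
      have h7 : e.symm x ∈ L'.comap e.toMonoidHom := by
        change e (e.symm x) ∈ L'
        rwa [e.apply_symm_apply]
      rw [h, Subgroup.mem_bot] at h7
      rw [Subgroup.mem_bot, ← e.apply_symm_apply x, h7, map_one]
    have h7 := h3 _ h4 h6 h5
    rw [← h7]
    exact (Subgroup.map_comap_eq_self_of_surjective e.surjective _).symm

theorem prim_nonabelian [Finite G] {D : Set G} {M : Subgroup G} (hP : Prim D M) {A : Subgroup G}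
    [hA : A.Normal] (hA1 : A ≠ ⊥) (hmin : ∀ B : Subgroup G, B.Normal → B ≤ A → B = ⊥ ∨ B = A)
    (heven : Even (Nat.card A)) :
    IsSimpleGroup A ∧ Subgroup.centralizer (A : Set G) = ⊥ := by
  have htop := sup_top_of_prim hP hA hA1
  have hmul := exists_mul_of_sup hA htop
  -- normal subgroups of `A` of odd order are trivial
  have hodd0 : ∀ L : Subgroup A, L.Normal → Odd (Nat.card L) → L = ⊥ := by
    obtain ⟨P, hPn, hPo, hPmax⟩ := exists_odd_core A
    have hPbot : P = ⊥ := by
      have hn : (P.map A.subtype).Normal := by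
        constructor
        rintro _ ⟨x, hx, rfl⟩ g
        have h1 : (P.map (MulAut.conjNormal g : A ≃* A).toMonoidHom) ≤ P := by
          have h2 : Nat.card (P.map (MulAut.conjNormal g : A ≃* A).toMonoidHom) = Nat.card P :=
            (Nat.card_congr (P.equivMapOfInjective _
              (MulAut.conjNormal g : A ≃* A).injective).toEquiv).symm
          have h3 : Odd (Nat.card (P.map (MulAut.conjNormal g : A ≃* A).toMonoidHom)) := by
            rw [h2]
            exact hPo
          exact hPmax (P.map (MulAut.conjNormal g : A ≃* A).toMonoidHom)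
            (hPn.map _ (MulAut.conjNormal g : A ≃* A).surjective) h3
        have h2 : MulAut.conjNormal g x ∈ P := h1 ⟨x, hx, rfl⟩
        exact ⟨MulAut.conjNormal g x, h2, MulAut.conjNormal_apply g x⟩
      rcases hmin _ hn (Subgroup.map_subtype_le P) with h | h
      · rwa [Subgroup.map_eq_bot_iff_of_injective _ A.subtype_injective] at h
      · exfalso
        have h1 : P = ⊤ := by
          rw [eq_top_iff]
          intro x _
          have h2 : (x : G) ∈ P.map A.subtype := by rw [h]; exact x.2
          obtain ⟨y, hy, hyx⟩ := h2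
          have : y = x := Subtype.ext hyx
          rwa [← this]
        rw [h1, Subgroup.card_top, ← Nat.not_even_iff_odd] at hPo
        exact hPo heven
    intro L hL1 hL2
    rw [eq_bot_iff, ← hPbot]
    exact hPmax L hL1 hL2
  -- elements of `D ∩ M` normalise the minimal normal subgroups of `A`
  have hnorm0 : ∀ d ∈ D, d ∈ M → ∀ L : Subgroup A, MinNormal L →
      L.map (MulAut.conjNormal d : A ≃* A).toMonoidHom = L := by
    intro d hd hdM L hL
    by_contra hne
    set φ : A ≃* A := MulAut.conjNormal d with hφ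
    have hL' := hL.map φ
    have hd2 := hP.inv d hd
    have hdi : d⁻¹ = d := inv_eq_of_mul_eq_one_left hd2
    have hdisj : Disjoint L (L.map φ.toMonoidHom) := by
      rw [disjoint_iff]
      by_contra hne2
      have hn : (L ⊓ L.map φ.toMonoidHom).Normal := by
        have h1 := hL.1
        have h2 := hL'.1
        infer_instance
      have h1 := hL.2.2 _ hn hne2 inf_le_left
      have h2 := hL'.2.2 _ hn hne2 inf_le_right
      exact hne (h2.symm.trans h1)
    -- involutions of `L` lie in `M`
    have hinvM : ∀ x ∈ L, x * x = 1 → (x : G) ∈ M := by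
      intro x hx hxx
      have hy : φ x ∈ L.map φ.toMonoidHom := ⟨x, hx, rfl⟩
      have hcomm := Subgroup.commute_of_normal_of_disjoint _ _ hL.1 hL'.1 hdisj x (φ x) hx hy
      have hcomm' : (x : G) * (d * x * d⁻¹) = (d * x * d⁻¹) * x := by
        have := congrArg Subtype.val hcomm.eq
        rw [Subgroup.coe_mul, Subgroup.coe_mul, hφ, MulAut.conjNormal_apply] at this
        exact this
      rw [hdi] at hcomm'
      have hXX : (x : G) * x = 1 := by
        have := congrArg Subtype.val hxx
        simpa using this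
      have hXi : (x : G)⁻¹ = x := inv_eq_of_mul_eq_one_left hXX
      have hk : (x : G)⁻¹ * d * x ∈ M := by
        apply hP.ctl d hd hdM
        have h1 : ((x : G)⁻¹ * d * x)⁻¹ * d * ((x : G)⁻¹ * d * x) = d := by
          have h2 : d * ((x : G)⁻¹ * d * x) = ((x : G)⁻¹ * d * x) * d := by
            rw [hXi]
            calc d * ((x : G) * d * x) = (d * x * d) * x := by group
              _ = x * (d * x * d) := hcomm'.symm
              _ = (x : G) * d * x * d := by group
          rw [mul_assoc, h2]
          group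
        rw [h1]
        exact hdM
      exact hP.ctl d hd hdM x hk
    set I : Subgroup A := Subgroup.closure {x | x ∈ L ∧ x * x = 1} with hI
    have hIL : I ≤ L := by
      rw [hI, Subgroup.closure_le]
      exact fun x hx => hx.1
    have hIn : I.Normal := by
      constructor
      intro n hn g
      have h1 : I ≤ I.comap (MulAut.conj g).toMonoidHom := by
        rw [hI, Subgroup.closure_le]
        rintro x ⟨hx, hxx⟩
        apply Subgroup.subset_closure
        refine ⟨hL.1.conj_mem x hx g, ?_⟩
        change g * x * g⁻¹ * (g * x * g⁻¹) = 1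
        have : g * x * g⁻¹ * (g * x * g⁻¹) = g * (x * x) * g⁻¹ := by group
        rw [this, hxx]; group
      exact h1 hn
    have hIne : I ≠ ⊥ := by
      intro h
      have hLo : ¬ Odd (Nat.card L) := fun h1 => hL.2.1 (hodd0 L hL.1 h1)
      rw [Nat.not_odd_iff_even, even_iff_two_dvd] at hLo
      obtain ⟨x, hx⟩ := exists_prime_orderOf_dvd_card' (p := 2) hLo
      have h1 : x * x = 1 := by
        have := pow_orderOf_eq_one x
        rwa [hx, pow_two] at this
      have h2 : (x : A) ∈ I := Subgroup.subset_closure ⟨x.2, by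
        have := congrArg Subtype.val h1
        simpa using this⟩
      rw [h, Subgroup.mem_bot] at h2
      have h3 : x = 1 := Subtype.ext h2
      rw [h3, orderOf_one] at hx
      omega
    have hILeq := hL.2.2 _ hIn hIne hIL
    have hLM : ∀ x ∈ L, (x : G) ∈ M := by
      intro x hx
      have h1 : I ≤ M.comap A.subtype := by
        rw [hI, Subgroup.closure_le]
        rintro y ⟨hy, hyy⟩
        exact hinvM y hy hyy
      rw [hILeq] at h1
      exact h1 hx
    -- the normal closure of `L` lies in `M`
    have hncl : Subgroup.normalClosure ((L.map A.subtype : Subgroup G) : Set G) ≤ M := by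
      rw [Subgroup.normalClosure, Subgroup.closure_le]
      intro y hy
      rw [Group.mem_conjugatesOfSet_iff] at hy
      obtain ⟨z, ⟨x, hx, rfl⟩, hconj⟩ := hy
      obtain ⟨g, rfl⟩ := isConj_iff.1 hconj
      obtain ⟨m, hm, w, hw, rfl⟩ := hmul g
      have h1 : (⟨w, hw⟩ : A) * x * (⟨w, hw⟩ : A)⁻¹ ∈ L := hL.1.conj_mem x hx _
      have h2 := hLM _ h1
      have h3 : m * w * (A.subtype x) * (m * w)⁻¹ =
          m * (((⟨w, hw⟩ : A) * x * (⟨w, hw⟩ : A)⁻¹ : A) : G) * m⁻¹ := by
        simp only [Subgroup.coe_mul, Subgroup.coe_inv, Subgroup.coe_subtype]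
        group
      change m * w * (A.subtype x) * (m * w)⁻¹ ∈ M
      rw [h3]
      exact M.mul_mem (M.mul_mem hm h2) (M.inv_mem hm)
    have h4 := le_bot_of_core hP Subgroup.normalClosure_normal hncl
    apply hL.2.1
    rw [eq_bot_iff]
    intro x hx
    have h5 : (x : G) ∈ Subgroup.normalClosure ((L.map A.subtype : Subgroup G) : Set G) :=
      Subgroup.subset_normalClosure ⟨x, hx, rfl⟩
    rw [h4, Subgroup.mem_bot] at h5
    rw [Subgroup.mem_bot]
    exact Subtype.ext h5
  -- composition of the conjugation maps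
  have hcompmap : ∀ (g h : G) (L : Subgroup A),
      (L.map (MulAut.conjNormal h : A ≃* A).toMonoidHom).map
        (MulAut.conjNormal g : A ≃* A).toMonoidHom =
      L.map (MulAut.conjNormal (g * h) : A ≃* A).toMonoidHom := by
    intro g h L
    rw [Subgroup.map_map]
    congr 1
    ext x
    simp
  have hnorm : ∀ d ∈ D, ∀ L : Subgroup A, MinNormal L →
      L.map (MulAut.conjNormal d : A ≃* A).toMonoidHom = L := by
    intro d hd L hL
    obtain ⟨g, hg⟩ := hP.tr d hd
    have h1 := hnorm0 _ (hP.conj d hd g) hg _ (hL.map (MulAut.conjNormal g⁻¹))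
    rw [hcompmap] at h1
    have h2 := congrArg (fun L' : Subgroup A =>
      L'.map (MulAut.conjNormal g : A ≃* A).toMonoidHom) h1
    simp only [hcompmap] at h2
    have h3 : g * (g⁻¹ * d * g * g⁻¹) = d := by group
    rw [h3, mul_inv_cancel] at h2
    rw [h2]
    have h4 : (MulAut.conjNormal (1 : G) : A ≃* A).toMonoidHom = MonoidHom.id A := by
      ext x; simp
    rw [h4, Subgroup.map_id]
  have hall : ∀ g : G, ∀ L : Subgroup A, MinNormal L →
      L.map (MulAut.conjNormal g : A ≃* A).toMonoidHom = L := by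
    intro g
    have hg : g ∈ Subgroup.closure D := by rw [hP.gen]; trivial
    induction hg using Subgroup.closure_induction with
    | mem x hx => exact hnorm x hx
    | one =>
      intro L _
      have h4 : (MulAut.conjNormal (1 : G) : A ≃* A).toMonoidHom = MonoidHom.id A := by
        ext x; simp
      rw [h4, Subgroup.map_id]
    | mul x y _ _ hx hy =>
      intro L hL
      rw [← hcompmap, hy L hL, hx L hL]
    | inv x _ hx =>
      intro L hL
      have h1 := hx L hL
      have h2 := congrArg (fun L' : Subgroup A =>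
        L'.map (MulAut.conjNormal x⁻¹ : A ≃* A).toMonoidHom) h1
      simp only [hcompmap, inv_mul_cancel] at h2
      have h4 : (MulAut.conjNormal (1 : G) : A ≃* A).toMonoidHom = MonoidHom.id A := by
        ext x; simp
      rw [h4, Subgroup.map_id] at h2
      exact h2.symm
  have hminTop : ∀ L : Subgroup A, MinNormal L → L = ⊤ := by
    intro L hL
    have hn : (L.map A.subtype).Normal := by
      constructor
      rintro _ ⟨x, hx, rfl⟩ g
      have h1 : MulAut.conjNormal g x ∈ L := by
        have h2 : MulAut.conjNormal g x ∈ L.map (MulAut.conjNormal g : A ≃* A).toMonoidHom :=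
          ⟨x, hx, rfl⟩
        rwa [hall g L hL] at h2
      exact ⟨MulAut.conjNormal g x, h1, MulAut.conjNormal_apply g x⟩
    rcases hmin _ hn (Subgroup.map_subtype_le L) with h | h
    · exfalso
      apply hL.2.1
      rwa [Subgroup.map_eq_bot_iff_of_injective _ A.subtype_injective] at h
    · rw [eq_top_iff]
      intro x _
      have h2 : (x : G) ∈ L.map A.subtype := by rw [h]; exact x.2
      obtain ⟨y, hy, hyx⟩ := h2
      have : y = x := Subtype.ext hyx
      rwa [← this]
  have hnt : Nontrivial A := by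
    rw [Subgroup.nontrivial_iff_ne_bot]
    exact hA1
  refine ⟨⟨fun L hL => ?_⟩, ?_⟩
  · by_cases hLb : L = ⊥
    · exact Or.inl hLb
    · right
      obtain ⟨L', hL1, ⟨hL2, hL3⟩, hL4⟩ :=
        exists_minimal_of (p := fun L : Subgroup A => L.Normal ∧ L ≠ ⊥) ⟨hL, hLb⟩
      have := hminTop L' ⟨hL2, hL3, fun L'' h1 h2 h3 => hL4 L'' ⟨h1, h2⟩ h3⟩
      rw [eq_top_iff, ← this]
      exact hL1
  · by_contra hC
    set C : Subgroup G := Subgroup.centralizer (A : Set G) with hCdef
    have hCn : C.Normal := by rw [hCdef]; infer_instance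
    have hCtop := sup_top_of_prim hP hCn hC
    have hCmul := exists_mul_of_sup hCn hCtop
    have hint : A ⊓ M = ⊥ := by
      apply le_bot_of_core hP _ inf_le_right
      constructor
      rintro n ⟨hnA, hnM⟩ g
      obtain ⟨m, hm, x, hx, rfl⟩ := hCmul g
      have h1 : m * x * n * (m * x)⁻¹ = m * n * m⁻¹ := by
        have h2 : n * x = x * n := (Subgroup.mem_centralizer_iff.1 hx) n hnA
        calc m * x * n * (m * x)⁻¹ = m * (x * n) * x⁻¹ * m⁻¹ := by group
          _ = m * n * m⁻¹ := by rw [← h2]; group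
      rw [h1]
      exact ⟨hA.conj_mem n hnA m, M.mul_mem (M.mul_mem hm hnM) (M.inv_mem hm)⟩
    have hcompl : Subgroup.IsComplement' M A := by
      apply Subgroup.isComplement'_of_disjoint_and_mul_eq_univ
      · rw [disjoint_iff, inf_comm]; exact hint
      · rw [← Subgroup.mul_normal, sup_comm, htop]; rfl
    have h1 := hcompl.symm.index_eq_card
    have hodd := hP.odd
    rw [hcompl.symm.index_eq_card, ← Nat.not_even_iff_odd] at hodd
    exact hodd heven

end Pool.Agent.Lib.MP_39b43f_al
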