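import Pool.Agent.Lib.MP_39b43f_al.Red4
import Pool.Agent.Lib.MP_39b43f_al.Defs2

/-!
# The reduction theorem, forward direction
-/

namespace Pool.Agent.Lib.MP_39b43f_al

variable {G : Type*} [Group G]

/-- the alternative for a group generated by its class of involutions -/
theorem alternative [Finite G] {D : Set G} (hD : IsNormalInvolutionSet D)
    (hgen : Subgroup.closure D = ⊤) (hcls : ∀ b ∈ D, ∀ c ∈ D, IsConj b c)
    {M : Subgroup G} (hM : Pt D M) (hodd : Odd M.index) :
    (∃ N X : Subgroup G, N.Normal ∧ X.Normal ∧ N < X ∧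
      (∀ b ∈ D, ∀ c ∈ D, b * c ∈ X) ∧ (∀ b ∈ D, b ∉ X) ∧
      (∀ x ∈ X, ∀ y ∈ X, x⁻¹ * y⁻¹ * x * y ∈ N) ∧
      (∀ b ∈ D, ∀ x ∈ X, b⁻¹ * x * b * x ∈ N) ∧
      (∀ x ∈ X, x * x ∈ N → x ∈ N) ∧
      (∀ b ∈ D, ∀ c ∈ D, b ≠ c → b * c = c * b → ∀ x ∈ X, x * (b * c) = b * c * x → x ∈ N)) ∨
    NonabelianSocle (G ⧸ M.normalCore) := by
  have hP := prim_of_pt hD hgen hcls hM hodd
  have htopne : (⊤ : Subgroup (G ⧸ M.normalCore)) ≠ ⊥ := by
    intro h
    apply hP.coatom.1
    rw [eq_top_iff, h]
    exact bot_le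
  obtain ⟨L, _, ⟨hLn, hLb⟩, hLmin⟩ :=
    exists_minimal_of (G := G ⧸ M.normalCore) (p := fun L => L.Normal ∧ L ≠ ⊥)
      (L := ⊤) ⟨inferInstance, htopne⟩
  have hmin : ∀ L' : Subgroup (G ⧸ M.normalCore), L'.Normal → L' ≤ L → L' = ⊥ ∨ L' = L := by
    intro L' h1 h2
    by_cases h3 : L' = ⊥
    · exact Or.inl h3
    · exact Or.inr (hLmin L' ⟨h1, h3⟩ h2)
  by_cases hab : ∀ x ∈ L, ∀ y ∈ L, x * y = y * x
  · left
    obtain ⟨h1, h2, h3, h4, h5⟩ := prim_abelian hP hLn hLb hab
    set f := QuotientGroup.mk' M.normalCore with hf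
    have hsurj : Function.Surjective f := QuotientGroup.mk'_surjective _
    have hker : ∀ x : G, x ∈ M.normalCore ↔ f x = 1 := by
      intro x
      exact (QuotientGroup.eq_one_iff x).symm
    refine ⟨M.normalCore, L.comap f, inferInstance, hLn.comap f, ?_, ?_, ?_, ?_, ?_, ?_, ?_⟩
    · rw [lt_iff_le_and_ne]
      constructor
      · intro x hx
        change f x ∈ L
        rw [(hker x).1 hx]
        exact L.one_mem
      · intro h
        apply hLb
        rw [eq_bot_iff]
        intro y hy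
        obtain ⟨x, rfl⟩ := hsurj y
        have : x ∈ L.comap f := hy
        rw [← h, hker] at this
        rw [this]
        exact Subgroup.one_mem _
    · intro b hb c hc
      change f (b * c) ∈ L
      rw [map_mul]
      exact h3 _ ⟨b, hb, rfl⟩ _ ⟨c, hc, rfl⟩
    · intro b hb hbL
      exact h4 _ ⟨b, hb, rfl⟩ hbL
    · intro x hx y hy
      rw [hker]
      have := hab (f x) hx (f y) hy
      simp only [map_mul, map_inv]
      rw [mul_assoc, this]
      group
    · intro b hb x hx
      rw [hker]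
      have := h2 (f b) ⟨b, hb, rfl⟩ (f x) hx
      simp only [map_mul, map_inv]
      rw [this]
      group
    · intro x hx hxx
      rw [hker] at hxx ⊢
      rw [map_mul] at hxx
      exact h5 (f x) hx hxx
    · intro b hb c hc hbc hcomm x hx hxc
      obtain ⟨a, haD, haM⟩ := hM.ne
      obtain ⟨g, hg⟩ := isConj_iff.1 (hcls b hb a haD)
      have hb' : g * b * g⁻¹ ∈ D := by
        have := conj_mem hD hb g⁻¹
        rwa [inv_inv] at this
      have hc' : g * c * g⁻¹ ∈ D := by
        have := conj_mem hD hc g⁻¹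
        rwa [inv_inv] at this
      have hbM : g * b * g⁻¹ ∈ M := by rw [hg]; exact haM
      have hcM : g * c * g⁻¹ ∈ M := by
        apply hM.ctl _ hb' hbM
        have : (g * c * g⁻¹)⁻¹ * (g * b * g⁻¹) * (g * c * g⁻¹) = g * (c⁻¹ * (b * c)) * g⁻¹ := by
          group
        rw [this, hcomm]
        have : g * (c⁻¹ * (c * b)) * g⁻¹ = g * b * g⁻¹ := by group
        rw [this]
        exact hbM
      have hxM : g * x * g⁻¹ ∈ M := by
        apply hM.ctl _ hb' hbM
        have hx1 : (g * x * g⁻¹)⁻¹ * (g * b * g⁻¹) * (g * x * g⁻¹) ∈ D := conj_mem hD hb' _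
        apply hM.prd _ hb' _ hc' hbM hcM _ _ _ hx1
        · have e1 : (g * x * g⁻¹)⁻¹ * (g * b * g⁻¹) * (g * x * g⁻¹) *
              (g * b * g⁻¹ * (g * c * g⁻¹)) = g * (x⁻¹ * b * (x * (b * c))) * g⁻¹ := by group
          have e2 : g * b * g⁻¹ * (g * c * g⁻¹) *
              ((g * x * g⁻¹)⁻¹ * (g * b * g⁻¹) * (g * x * g⁻¹)) =
              g * (b * c * (x⁻¹ * b * x)) * g⁻¹ := by group
          rw [e1, e2]
          congr 2
          have e3 : b * c * x⁻¹ = x⁻¹ * (b * c) := by
            calc b * c * x⁻¹ = x⁻¹ * (x * (b * c)) * x⁻¹ := by group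
              _ = x⁻¹ * (b * c * x) * x⁻¹ := by rw [hxc]
              _ = x⁻¹ * (b * c) := by group
          have e4 : b * (b * c) = (b * c) * b := by
            calc b * (b * c) = b * (c * b) := by rw [hcomm]
              _ = (b * c) * b := by group
          calc x⁻¹ * b * (x * (b * c)) = x⁻¹ * b * (b * c * x) := by rw [hxc]
            _ = x⁻¹ * (b * (b * c)) * x := by group
            _ = x⁻¹ * ((b * c) * b) * x := by rw [e4]
            _ = (x⁻¹ * (b * c)) * b * x := by group
            _ = (b * c * x⁻¹) * b * x := by rw [e3]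
            _ = b * c * (x⁻¹ * b * x) := by group
        · have e1 : g * b * g⁻¹ * (g * c * g⁻¹) = g * (b * c) * g⁻¹ := by group
          have e2 : g * c * g⁻¹ * (g * b * g⁻¹) = g * (c * b) * g⁻¹ := by group
          rw [e1, e2, hcomm]
        · intro h
          apply hbc
          have e1 : b * c = 1 := by
            have : b * c = g⁻¹ * (g * b * g⁻¹ * (g * c * g⁻¹)) * g := by group
            rw [this, h]; group
          have e2 := eq_inv_of_mul_eq_one_right e1
          rw [e2, inv_self (hD.1 b hb)]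
      have hxL : f (g * x * g⁻¹) ∈ L := by
        have : f (g * x * g⁻¹) = f g * f x * (f g)⁻¹ := by simp
        rw [this]
        exact hLn.conj_mem _ hx _
      have h6 : f (g * x * g⁻¹) ∈ L ⊓ M.map f := ⟨hxL, Subgroup.mem_map_of_mem f hxM⟩
      rw [h1, Subgroup.mem_bot] at h6
      rw [hker]
      have h7 : f x = (f g)⁻¹ * f (g * x * g⁻¹) * f g := by simp [mul_assoc]
      rw [h7, h6]
      group
  · right
    have hnab : ∃ x ∈ L, ∃ y ∈ L, x * y ≠ y * x := by
      push Not at hab
      exact hab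
    refine ⟨L, hLn, hnab, ?_⟩
    rcases Nat.even_or_odd (Nat.card L) with h | h
    · left
      exact prim_nonabelian hP hLb hmin h
    · right
      exact ⟨h, hmin⟩

end Pool.Agent.Lib.MP_39b43f_al
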