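import Pool.Agent.Lib.MP_39b43f_al.Red5

/-!
# The reduction theorem
-/

namespace Pool.Agent.Lib.MP_39b43f_al

variable {G : Type*} [Group G]

lemma mem_cls_iff {a b : G} : b ∈ cls a ↔ IsConj a b := by
  rw [isConj_iff]
  constructor
  · rintro ⟨g, rfl⟩
    exact ⟨g⁻¹, by group⟩
  · rintro ⟨c, rfl⟩
    exact ⟨c⁻¹, by group⟩

lemma exists_cls [Finite G] (h : HasAdmissible G) :
    ∃ (a : G) (T : Set G), orderOf a = 2 ∧ Admissible (cls a) T := by
  obtain ⟨D, T, hD, hT⟩ := h
  obtain ⟨a, ha⟩ := hT.1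
  have haD := hT.2.1.1 ha
  have hcls : cls a = D := by
    ext x
    constructor
    · rintro ⟨g, rfl⟩
      exact conj_mem hD haD g
    · intro hx
      rw [mem_cls_iff]
      exact isConj_all hD hT a haD x hx
  exact ⟨a, T, hD.1 a haD, by rw [hcls]; exact hT⟩

lemma closure_cls (a : G) : Subgroup.closure (cls a) = Subgroup.normalClosure {a} := by
  rw [Subgroup.normalClosure]
  congr 1
  ext x
  rw [mem_cls_iff, Group.mem_conjugatesOfSet_iff]
  simp

lemma res_closure' {D : Set G} {K : Subgroup G} (hK : Subgroup.closure D = K) :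
    Subgroup.closure (res K D) = ⊤ := by
  subst hK
  exact res_closure

/-- from configuration data in `K` to `G` -/
theorem section_of [Finite G] {a : G} (ha : orderOf a = 2) {K : Subgroup G}
    (hK : Subgroup.closure (cls a) = K) {N X : Subgroup K} (hlt : N < X)
    (h1 : ∀ b ∈ res K (cls a), ∀ c ∈ res K (cls a), b * c ∈ X)
    (h2 : ∀ b ∈ res K (cls a), b ∉ X)
    (h3 : ∀ x ∈ X, ∀ y ∈ X, x⁻¹ * y⁻¹ * x * y ∈ N)
    (h4 : ∀ b ∈ res K (cls a), ∀ x ∈ X, b⁻¹ * x * b * x ∈ N)
    (h5 : ∀ x ∈ X, x * x ∈ N → x ∈ N)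
    (h6 : ∀ b ∈ res K (cls a), ∀ c ∈ res K (cls a), b ≠ c → b * c = c * b →
      ∀ x ∈ X, x * (b * c) = b * c * x → x ∈ N) : InvertedSection G := by
  have hD := cls_normal ha
  have hDK : ∀ b ∈ cls a, b ∈ K := fun b hb => hK ▸ Subgroup.subset_closure hb
  have haa : a * a = 1 := mul_self ha
  have hai : a⁻¹ = a := inv_self ha
  -- the subgroup generated by the products of two elements of the class
  set S : Set G := {y | ∃ b ∈ cls a, ∃ c ∈ cls a, y = b * c} with hS
  set E : Subgroup G := Subgroup.normalClosure S with hE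
  have hEn : E.Normal := Subgroup.normalClosure_normal
  have hEX : E ≤ X.map K.subtype := by
    rw [hE, Subgroup.normalClosure, Subgroup.closure_le]
    intro y hy
    rw [Group.mem_conjugatesOfSet_iff] at hy
    obtain ⟨z, ⟨b, hb, c, hc, rfl⟩, hconj⟩ := hy
    obtain ⟨g, rfl⟩ := isConj_iff.1 hconj
    have hb' : g * b * g⁻¹ ∈ cls a := by
      have := conj_mem hD hb g⁻¹
      rwa [inv_inv] at this
    have hc' : g * c * g⁻¹ ∈ cls a := by
      have := conj_mem hD hc g⁻¹
      rwa [inv_inv] at this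
    refine ⟨⟨g * b * g⁻¹, hDK _ hb'⟩ * ⟨g * c * g⁻¹, hDK _ hc'⟩, h1 _ hb' _ hc', ?_⟩
    simp [mul_assoc]
  have hkey : ∀ k ∈ K, k ∈ E ∨ a * k ∈ E := by
    intro k hk
    rw [← hK] at hk
    induction hk using Subgroup.closure_induction with
    | mem x hx =>
      right
      exact Subgroup.subset_normalClosure ⟨a, self_mem_cls a, x, hx, rfl⟩
    | one => left; exact E.one_mem
    | mul x y _ _ hx hy =>
      rcases hx with hx | hx <;> rcases hy with hy | hy
      · left; exact E.mul_mem hx hy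
      · right
        have h7 := E.mul_mem (hEn.conj_mem x hx a) hy
        have h8 : a * x * a⁻¹ * (a * y) = a * (x * y) := by group
        rwa [h8] at h7
      · right
        have h7 := E.mul_mem hx hy
        rwa [mul_assoc] at h7
      · left
        have h7 := hEn.conj_mem _ hx a⁻¹
        have h8 := E.mul_mem h7 hy
        have h9 : a⁻¹ * (a * x) * a⁻¹⁻¹ * (a * y) = x * (a * a) * y := by group
        rw [h9, haa, mul_one] at h8
        exact h8
    | inv x _ hx =>
      rcases hx with hx | hx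
      · left; exact E.inv_mem hx
      · right
        have h7 := hEn.conj_mem _ (E.inv_mem hx) a
        have h8 : a * (a * x)⁻¹ * a⁻¹ = a * x⁻¹ * (a⁻¹ * a⁻¹) := by group
        rw [h8, hai, haa, mul_one] at h7
        exact h7
  have hXE : X.map K.subtype = E := by
    apply le_antisymm _ hEX
    rintro _ ⟨x, hx, rfl⟩
    rcases hkey x x.2 with h | h
    · exact h
    · exfalso
      have h7 := (X.map K.subtype).mul_mem (hEX h) ((X.map K.subtype).inv_mem
        (Subgroup.mem_map_of_mem K.subtype hx))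
      have h8 : a * (x : G) * (K.subtype x)⁻¹ = a := by
        rw [Subgroup.coe_subtype, mul_inv_cancel_right]
      rw [h8] at h7
      obtain ⟨y, hy, hya⟩ := h7
      apply h2 y
      · change (y : G) ∈ cls a
        rw [Subgroup.coe_subtype] at hya
        rw [hya]
        exact self_mem_cls a
      · exact hy
  have hXn : (X.map K.subtype).Normal := by rw [hXE]; exact hEn
  -- conjugation inside `X`
  have hXc : ∀ x ∈ X.map K.subtype, ∀ g : G, ∃ x' ∈ X, (x' : G) = g * x * g⁻¹ := by
    intro x hx g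
    obtain ⟨y, hy, hyx⟩ := hXn.conj_mem x hx g
    exact ⟨y, hy, hyx⟩
  have hNmem : ∀ y : G, (∀ g : G, ∃ n ∈ N, (n : G) = g * y * g⁻¹) →
      y ∈ (N.map K.subtype).normalCore := by
    intro y hy g
    obtain ⟨n, hn, hng⟩ := hy g
    exact ⟨n, hn, hng⟩
  have hNc : ∀ y ∈ (N.map K.subtype).normalCore, ∀ g : G, ∃ n ∈ N, (n : G) = g * y * g⁻¹ := by
    intro y hy g
    obtain ⟨n, hn, hng⟩ := hy g
    exact ⟨n, hn, hng⟩
  have hDc : ∀ b : G, IsConj a b → ∀ g : G, ∃ b' ∈ res K (cls a), (b' : G) = g * b * g⁻¹ := by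
    intro b hb g
    have hb' : g * b * g⁻¹ ∈ cls a := by
      have := conj_mem hD (mem_cls_iff.2 hb) g⁻¹
      rwa [inv_inv] at this
    exact ⟨⟨_, hDK _ hb'⟩, hb', rfl⟩
  have hsq : ∀ x ∈ X.map K.subtype, x * x ∈ (N.map K.subtype).normalCore →
      x ∈ (N.map K.subtype).normalCore := by
    intro x hx hxx
    apply hNmem
    intro g
    obtain ⟨x', hx', hxg⟩ := hXc x hx g
    obtain ⟨n, hn, hng⟩ := hNc _ hxx g
    refine ⟨x', h5 x' hx' ?_, hxg⟩
    have : x' * x' = n := by
      apply Subtype.ext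
      rw [Subgroup.coe_mul, hxg, hng]
      group
    rw [this]
    exact hn
  refine ⟨a, (N.map K.subtype).normalCore, X.map K.subtype, ha, inferInstance, hXn, ?_, ?_, ?_,
    ?_, ?_, ?_⟩
  · rw [lt_iff_le_and_ne]
    constructor
    · exact (Subgroup.normalCore_le _).trans (Subgroup.map_mono hlt.le)
    · intro h
      obtain ⟨x, hx, hxN⟩ := SetLike.exists_of_lt hlt
      have h7 : (x : G) ∈ X.map K.subtype := Subgroup.mem_map_of_mem K.subtype hx
      rw [← h] at h7
      obtain ⟨n, hn, hnx⟩ := hNc _ h7 1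
      apply hxN
      have : x = n := by
        apply Subtype.ext
        rw [hnx]; group
      rw [this]
      exact hn
  · rw [← Nat.not_even_iff_odd, even_iff_two_dvd]
    intro h7
    change 2 ∣ (((N.map K.subtype).normalCore).subgroupOf (X.map K.subtype)).index at h7
    rw [Subgroup.index_eq_card] at h7
    obtain ⟨y, hy⟩ := exists_prime_orderOf_dvd_card' (p := 2) h7
    obtain ⟨x, rfl⟩ := QuotientGroup.mk_surjective y
    have h8 : x * x ∈ ((N.map K.subtype).normalCore).subgroupOf (X.map K.subtype) := by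
      rw [← QuotientGroup.eq_one_iff]
      have := pow_orderOf_eq_one (x : (X.map K.subtype : Subgroup G) ⧸
        ((N.map K.subtype).normalCore).subgroupOf (X.map K.subtype))
      rw [hy, pow_two] at this
      exact this
    rw [Subgroup.mem_subgroupOf] at h8
    have h9 := hsq (x : G) x.2 h8
    have h10 : (x : (X.map K.subtype : Subgroup G) ⧸
        ((N.map K.subtype).normalCore).subgroupOf (X.map K.subtype)) = 1 := by
      rw [QuotientGroup.eq_one_iff, Subgroup.mem_subgroupOf]
      exact h9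
    rw [h10, orderOf_one] at hy
    omega
  · intro x hx y hy
    apply hNmem
    intro g
    obtain ⟨x', hx', hxg⟩ := hXc x hx g
    obtain ⟨y', hy', hyg⟩ := hXc y hy g
    refine ⟨x'⁻¹ * y'⁻¹ * x' * y', h3 x' hx' y' hy', ?_⟩
    simp only [Subgroup.coe_mul, Subgroup.coe_inv, hxg, hyg]
    group
  · intro x hx
    apply hNmem
    intro g
    obtain ⟨x', hx', hxg⟩ := hXc x hx g
    obtain ⟨b, hb, hbg⟩ := hDc a (IsConj.refl a) g
    refine ⟨b⁻¹ * x' * b * x', h4 b hb x' hx', ?_⟩
    simp only [Subgroup.coe_mul, Subgroup.coe_inv, hxg, hbg]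
    group
  · intro g
    have h7 : a * (g⁻¹ * a * g) ∈ E :=
      Subgroup.subset_normalClosure ⟨a, self_mem_cls a, _, ⟨g, rfl⟩, rfl⟩
    rw [hXE, hai]
    have h8 : a * g⁻¹ * a * g = a * (g⁻¹ * a * g) := by group
    rw [h8]
    exact h7
  · intro b c hb hc hbc hcomm x hx hxc
    apply hNmem
    intro g
    obtain ⟨x', hx', hxg⟩ := hXc x hx g
    obtain ⟨b', hb', hbg⟩ := hDc b hb g
    obtain ⟨c', hc', hcg⟩ := hDc c hc g
    refine ⟨x', h6 b' hb' c' hc' ?_ ?_ x' hx' ?_, hxg⟩
    · intro h
      apply hbc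
      have h7 : g * b * g⁻¹ = g * c * g⁻¹ := by rw [← hbg, ← hcg, h]
      exact mul_left_cancel (mul_right_cancel h7)
    · apply Subtype.ext
      rw [Subgroup.coe_mul, Subgroup.coe_mul, hbg, hcg]
      have e1 : g * b * g⁻¹ * (g * c * g⁻¹) = g * (b * c) * g⁻¹ := by group
      have e2 : g * c * g⁻¹ * (g * b * g⁻¹) = g * (c * b) * g⁻¹ := by group
      rw [e1, e2, hcomm]
    · apply Subtype.ext
      simp only [Subgroup.coe_mul, hbg, hcg, hxg]
      have e1 : g * x * g⁻¹ * (g * b * g⁻¹ * (g * c * g⁻¹)) = g * (x * (b * c)) * g⁻¹ := by group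
      have e2 : g * b * g⁻¹ * (g * c * g⁻¹) * (g * x * g⁻¹) = g * (b * c * x) * g⁻¹ := by group
      rw [e1, e2, hxc]

/-- the image of an isolating subgroup is isolating modulo the core -/
lemma isolating_map [Finite G] {D : Set G} (hD : IsNormalInvolutionSet D)
    (hgen : Subgroup.closure D = ⊤) (hcls : ∀ b ∈ D, ∀ c ∈ D, IsConj b c) {M : Subgroup G}
    (hM : Pt D M) (hodd : Odd M.index) :
    Isolating ((QuotientGroup.mk' M.normalCore) '' D) (M.map (QuotientGroup.mk' M.normalCore)) := by
  have hP := prim_of_pt hD hgen hcls hM hodd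
  have hadm := admissible_of_pt hgen hM
  refine ⟨hP.coatom, hP.ne, hP.ctl, ?_⟩
  rintro _ ⟨b, hb, rfl⟩ _ ⟨c, hc, rfl⟩ hbM hcM hbc hcomm _ ⟨⟨d, hd, rfl⟩, hdcomm⟩
  have hbM' : b ∈ M := mem_of_map_mem hbM
  have hcM' : c ∈ M := mem_of_map_mem hcM
  by_contra hdM
  have hdM' : d ∉ M := fun h => hdM (Subgroup.mem_map_of_mem _ h)
  set f := QuotientGroup.mk' M.normalCore with hf
  have hb2 : f b * f b = 1 := by rw [← map_mul, mul_self (hD.1 b hb), map_one]
  have hc2 : f c * f c = 1 := by rw [← map_mul, mul_self (hD.1 c hc), map_one]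
  have o1 : Odd (orderOf (f b * f d)) := by
    have h1 := odd_of_admissible hD hadm ⟨hb, hbM'⟩ hd (fun h => hdM' h.2)
    rw [← map_mul]
    exact Odd.of_dvd_nat h1 (orderOf_map_dvd f _)
  have o2 : Odd (orderOf (f c * f d)) := by
    have h1 := odd_of_admissible hD hadm ⟨hc, hcM'⟩ hd (fun h => hdM' h.2)
    rw [← map_mul]
    exact Odd.of_dvd_nat h1 (orderOf_map_dvd f _)
  -- `z = f b * f c` is an involution commuting with `f b * f d`, and `f c * f d = z * (f b * f d)`
  set z := f b * f c with hz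
  have hzz : z * z = 1 := by
    have h1 : z * z = f b * f c * (f c * f b) := by rw [← hcomm]
    rw [h1]
    calc f b * f c * (f c * f b) = f b * (f c * f c) * f b := by group
      _ = 1 := by rw [hc2, mul_one, hb2]
  have hbz : f b * z = z * f b := by
    calc f b * z = f b * (f c * f b) := by rw [← hcomm]
      _ = (f b * f c) * f b := by group
      _ = z * f b := rfl
  have hcd : f c * f d = z * (f b * f d) := by
    calc f c * f d = (f b * f b) * f c * f d := by rw [hb2, one_mul]
      _ = f b * (f b * f c) * f d := by group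
      _ = z * (f b * f d) := by rw [← hz, hbz]; group
  have hcm : Commute z (f b * f d) := by
    change z * (f b * f d) = f b * f d * z
    calc z * (f b * f d) = (z * f b) * f d := by group
      _ = f b * (z * f d) := by rw [← hbz]; group
      _ = f b * (f d * z) := by rw [hdcomm]
      _ = f b * f d * z := by group
  have h1 : z ^ (orderOf (f c * f d) * orderOf (f b * f d)) = 1 := by
    have h2 : (f c * f d) ^ (orderOf (f c * f d) * orderOf (f b * f d)) = 1 := by
      rw [pow_mul, pow_orderOf_eq_one, one_pow]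
    have h3 : (f b * f d) ^ (orderOf (f c * f d) * orderOf (f b * f d)) = 1 := by
      rw [mul_comm, pow_mul, pow_orderOf_eq_one, one_pow]
    nth_rewrite 1 [hcd] at h2
    rw [hcm.mul_pow, h3, mul_one] at h2
    exact h2
  obtain ⟨m, hm⟩ := o2.mul o1
  rw [hm, pow_add, pow_mul, pow_two, hzz, one_pow, one_mul, pow_one] at h1
  apply hbc
  have h2 : f b = (f c)⁻¹ := eq_inv_of_mul_eq_one_left h1
  rw [h2, inv_eq_of_mul_eq_one_left hc2]

theorem reduction_forward [Finite G] (h : HasAdmissible G) :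
    InvertedSection G ∨ LiftedPair G := by
  obtain ⟨a, T, ha, hT⟩ := exists_cls h
  have hD := cls_normal ha
  have hK := closure_cls a
  set K := Subgroup.normalClosure {a} with hKdef
  have hDK : cls a ⊆ K := by
    intro b hb
    rw [← hK]
    exact Subgroup.subset_closure hb
  have hDr := res_normal hD K
  have hTr := res_admissible hDK hT
  have hgen := res_closure' hK
  have hcl := isConj_all hDr hTr
  obtain ⟨M, hM, hodd⟩ := exists_pt hDr hTr hgen
  rcases alternative hDr hgen hcl hM hodd with h1 | h1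
  · left
    obtain ⟨N, X, _, _, hlt, h1, h2, h3, h4, h5, h6⟩ := h1
    exact section_of ha hK hlt h1 h2 h3 h4 h5 h6
  · right
    have hset : {k : K | IsConj a (k : G)} = res K (cls a) := by
      ext k
      exact mem_cls_iff.symm
    refine ⟨a, M, ha, h1, ?_, ?_⟩
    · rw [hset]
      exact isolating_map hDr hgen hcl hM hodd
    · rw [hset]
      intro b c hb hc hbM hcM hbc hcomm _ d hd
      have hb' : b ∈ res K (cls a) := mem_cls_iff.2 hb
      have hc' : c ∈ res K (cls a) := mem_cls_iff.2 hc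
      apply hM.prd b hb' c hc' hbM hcM hcomm _ d hd.1 hd.2
      intro h7
      apply hbc
      have e2 := eq_inv_of_mul_eq_one_right h7
      rw [e2, inv_self (hDr.1 b hb')]

end Pool.Agent.Lib.MP_39b43f_al
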