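import Pool.Agent.Lib.MP_39b43f_al.Red6

/-!
# The reduction theorem: converse and the solvable case
-/

namespace Pool.Agent.Lib.MP_39b43f_al

variable {G : Type*} [Group G]

theorem of_section [Finite G] (h : InvertedSection G) : HasAdmissible G := by
  obtain ⟨a, N, X, ha, hN, hX, hlt, hodd, h1, h2, h3, h4⟩ := h
  have hD := cls_normal ha
  have haa : a * a = 1 := mul_self ha
  have hai : a⁻¹ = a := inv_self ha
  set f := QuotientGroup.mk' N with hf
  have hker : ∀ x : G, x ∈ N ↔ f x = 1 := fun x => (QuotientGroup.eq_one_iff x).symm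
  have hsq : ∀ x ∈ X, x * x ∈ N → x ∈ N := by
    intro x hx hxx
    have h5 : x ^ N.relIndex X ∈ N := by
      have h6 : (⟨x, hx⟩ : X) ^ (N.subgroupOf X).index ∈ N.subgroupOf X :=
        Subgroup.pow_index_mem _ _
      rw [Subgroup.mem_subgroupOf] at h6
      simpa [Subgroup.relIndex] using h6
    obtain ⟨k, hk⟩ := hodd
    rw [hk, pow_add, pow_mul, pow_two, pow_one] at h5
    have h6 : (x * x) ^ k ∈ N := N.pow_mem hxx k
    exact (Subgroup.mul_mem_cancel_left N h6).1 h5
  have hαα : f a * f a = 1 := by rw [← map_mul, haa, map_one]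
  have hαi : (f a)⁻¹ = f a := inv_eq_of_mul_eq_one_left hαα
  have hinv : ∀ x ∈ X, f a * f x * f a = (f x)⁻¹ := by
    intro x hx
    have h5 := (hker _).1 (h2 x hx)
    simp only [map_mul, map_inv, hαi] at h5
    exact eq_inv_of_mul_eq_one_left h5
  have hdX : ∀ d ∈ cls a, a * d ∈ X := by
    rintro d ⟨g, rfl⟩
    have h5 := h3 g
    rw [hai] at h5
    have h6 : a * (g⁻¹ * a * g) = a * g⁻¹ * a * g := by group
    rw [h6]
    exact h5
  refine ⟨cls a, {d | d ∈ cls a ∧ a * d ∈ N}, hD, ⟨a, self_mem_cls a, ?_⟩, ?_, ?_, ?_⟩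
  · rw [haa]; exact N.one_mem
  · refine ⟨fun d hd => hd.1, ?_⟩
    intro hsub
    obtain ⟨x, hx, hxN⟩ := SetLike.exists_of_lt hlt
    apply hxN
    have h5 : a * (x⁻¹ * a * x) ∈ N := (hsub ⟨x, rfl⟩).2
    rw [hker] at h5
    have h6 := hinv _ (X.inv_mem hx)
    apply hsq x hx
    rw [hker, map_mul]
    simp only [map_mul, map_inv, inv_inv] at h5 h6
    have h7 : f a * ((f x)⁻¹ * f a * f x) = (f a * (f x)⁻¹ * f a) * f x := by group
    rw [h7, h6] at h5
    exact h5
  · rintro b ⟨hb, hbN⟩ d ⟨hd, hcomm⟩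
    refine ⟨hd, ?_⟩
    apply hsq _ (hdX d hd)
    have hfb : f b = f a := by
      rw [hker, map_mul] at hbN
      have := eq_inv_of_mul_eq_one_right hbN
      rw [this, hαi]
    have h5 := hinv _ (hdX d hd)
    have h6 := congrArg f hcomm
    rw [map_mul, map_mul, hfb] at h6
    rw [hker, map_mul]
    rw [map_mul] at h5 ⊢
    -- `f a * (f a * f d) * f a = (f a * f d)⁻¹`
    have h7 : f a * (f a * f d) * f a = f a * f d := by
      calc f a * (f a * f d) * f a = (f a * f a) * (f d * f a) := by group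
        _ = f a * f d := by rw [hαα, one_mul, h6]
    rw [h7] at h5
    nth_rewrite 1 [h5]
    group
  · rintro b ⟨hb, hbN⟩ c ⟨hc, hcN⟩ hbc hne d ⟨hd, hcomm⟩
    refine ⟨hd, ?_⟩
    have hbb : b * b = 1 := mul_self (hD.1 b hb)
    have hbd : b * d ∈ X := by
      have h5 := X.mul_mem (X.inv_mem (hdX b hb)) (hdX d hd)
      have h6 : (a * b)⁻¹ * (a * d) = b * d := by
        rw [mul_inv_rev, inv_self (hD.1 b hb), hai]
        calc b * a * (a * d) = b * (a * a) * d := by group
          _ = b * d := by rw [haa, mul_one]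
      rwa [h6] at h5
    have h5 := h4 b c (mem_cls_iff.1 hb) (mem_cls_iff.1 hc) ?_ hbc (b * d) hbd ?_
    · rw [hker, map_mul] at h5 hbN ⊢
      have hfb : f b = f a := by
        have := eq_inv_of_mul_eq_one_right hbN
        rw [this, hαi]
      rw [hfb] at h5
      exact h5
    · intro h6
      apply hne
      rw [← h6, hbb]
    · calc b * d * (b * c) = b * (d * (b * c)) := by group
        _ = b * ((b * c) * d) := by rw [hcomm]
        _ = b * (c * b) * d := by rw [← hbc]; group
        _ = b * c * (b * d) := by group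

theorem of_isolating {a : G} (ha : orderOf a = 2) {K : Subgroup G}
    (hK : Subgroup.closure (cls a) = K) {M : Subgroup K}
    (h : Isolating {k : K | IsConj a (k : G)} M) : HasAdmissible G := by
  obtain ⟨hM, ⟨d₀, hd₀, hd₀M⟩, hctl, hprd⟩ := h
  have hD := cls_normal ha
  have hDK : ∀ b ∈ cls a, b ∈ K := fun b hb => hK ▸ Subgroup.subset_closure hb
  refine ⟨cls a, {d | ∃ h : d ∈ K, d ∈ cls a ∧ (⟨d, h⟩ : K) ∈ M}, hD, ?_, ?_, ?_, ?_⟩
  · exact ⟨d₀, d₀.2, mem_cls_iff.2 hd₀, hd₀M⟩
  · refine ⟨fun d hd => hd.2.1, ?_⟩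
    intro hsub
    apply hM.1
    rw [eq_top_iff, ← res_closure' hK, Subgroup.closure_le]
    intro k hk
    obtain ⟨_, _, h1⟩ := hsub hk
    exact h1
  · rintro b ⟨hbK, hb, hbM⟩ d ⟨hd, hcomm⟩
    refine ⟨hDK d hd, hd, ?_⟩
    apply hctl ⟨b, hbK⟩ (mem_cls_iff.1 hb) hbM
    have h1 : (⟨d, hDK d hd⟩ : K)⁻¹ * ⟨b, hbK⟩ * ⟨d, hDK d hd⟩ = ⟨b, hbK⟩ := by
      apply Subtype.ext
      simp only [Subgroup.coe_mul, Subgroup.coe_inv]
      rw [mul_assoc, ← hcomm, inv_mul_cancel_left]
    rw [h1]
    exact hbM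
  · rintro b ⟨hbK, hb, hbM⟩ c ⟨hcK, hc, hcM⟩ hbc hne d ⟨hd, hcomm⟩
    refine ⟨hDK d hd, hd, ?_⟩
    apply hprd ⟨b, hbK⟩ (mem_cls_iff.1 hb) ⟨c, hcK⟩ (mem_cls_iff.1 hc) hbM hcM
    · intro h1
      apply hne
      have h2 : b = c := congrArg Subtype.val h1
      rw [← h2]
      exact mul_self (hD.1 b hb)
    · exact Subtype.ext hbc
    · exact ⟨mem_cls_iff.1 hd, Subtype.ext hcomm⟩

theorem of_pair (h : LiftedPair G) : HasAdmissible G := by
  obtain ⟨a, M, ha, _, ⟨hM1, ⟨d₀, hd₀, hd₀M⟩, hM3, hM4⟩, hker⟩ := h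
  apply of_isolating ha (closure_cls a) (M := M)
  have hcomap := comap_map_core M
  have hsurj : Function.Surjective (QuotientGroup.mk' M.normalCore) :=
    QuotientGroup.mk'_surjective _
  refine ⟨?_, ?_, ?_, ?_⟩
  · constructor
    · intro h
      apply hM1.1
      rw [h, ← MonoidHom.range_eq_map, MonoidHom.range_eq_top]
      rw [← h]
      exact hsurj
    · intro B hB
      have h1 : M.map (QuotientGroup.mk' M.normalCore) < B.map (QuotientGroup.mk' M.normalCore) := by
        rw [lt_iff_le_and_ne]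
        refine ⟨Subgroup.map_mono hB.le, ?_⟩
        intro h2
        obtain ⟨x, hx, hxM⟩ := SetLike.exists_of_lt hB
        apply hxM
        apply mem_of_map_mem
        rw [h2]
        exact Subgroup.mem_map_of_mem _ hx
      have h2 := hM1.2 _ h1
      rw [eq_top_iff]
      intro x _
      have h3 : QuotientGroup.mk' M.normalCore x ∈ B.map (QuotientGroup.mk' M.normalCore) := by
        rw [h2]; trivial
      obtain ⟨y, hy, hyx⟩ := h3
      have h4 : (y : _ ⧸ M.normalCore) = (x : _ ⧸ M.normalCore) := hyx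
      rw [QuotientGroup.eq] at h4
      have h5 := hB.le (core_le M h4)
      have h6 : x = y * (y⁻¹ * x) := by group
      rw [h6]
      exact B.mul_mem hy h5
  · obtain ⟨d, hd, rfl⟩ := hd₀
    exact ⟨d, hd, mem_of_map_mem hd₀M⟩
  · intro d hd hdM k hk
    apply mem_of_map_mem
    apply hM3 _ ⟨d, hd, rfl⟩ (Subgroup.mem_map_of_mem _ hdM)
    have h1 := Subgroup.mem_map_of_mem (QuotientGroup.mk' M.normalCore) hk
    simp only [map_mul, map_inv] at h1
    exact h1
  · intro b hb c hc hbM hcM hbc hcomm d hd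
    by_cases hN : b * c ∈ M.normalCore
    · exact hker b c hb hc hbM hcM hbc hcomm hN hd
    · apply mem_of_map_mem
      apply hM4 _ ⟨b, hb, rfl⟩ _ ⟨c, hc, rfl⟩ (Subgroup.mem_map_of_mem _ hbM)
        (Subgroup.mem_map_of_mem _ hcM)
      · intro h1
        apply hN
        rw [← QuotientGroup.eq_one_iff]
        change QuotientGroup.mk' M.normalCore (b * c) = 1
        rw [map_mul, h1, ← map_mul]
        have h2 : c * c = 1 := by
          apply Subtype.ext
          rw [Subgroup.coe_mul]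
          exact mul_self ((cls_normal ha).1 _ (mem_cls_iff.2 hc))
        rw [h2, map_one]
      · rw [← map_mul, ← map_mul, hcomm]
      · refine ⟨⟨d, hd.1, rfl⟩, ?_⟩
        have h1 := congrArg (QuotientGroup.mk' M.normalCore) hd.2
        simp only [map_mul] at h1 ⊢
        exact h1

theorem reduction [Finite G] :
    HasAdmissible G ↔ InvertedSection G ∨ LiftedPair G :=
  ⟨reduction_forward, fun h => h.elim of_section of_pair⟩

lemma not_socle_of_solvable {B : Type*} [Group B] [Group.IsSolvable B] : ¬ NonabelianSocle B := by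
  rintro ⟨L, hLn, ⟨x, hx, y, hy, hxy⟩, h⟩
  rcases h with ⟨hs, _⟩ | ⟨_, hmin⟩
  · have h1 : Group.IsSolvable L := inferInstance
    have h2 := (IsSimpleGroup.comm_iff_isSolvable (G := L)).2 h1
    apply hxy
    have := h2 ⟨x, hx⟩ ⟨y, hy⟩
    exact congrArg Subtype.val this
  · have hcn : (⁅L, L⁆).Normal := inferInstance
    rcases hmin ⁅L, L⁆ hcn (Subgroup.commutator_le_left L L) with h1 | h1
    · apply hxy
      rw [Subgroup.commutator_eq_bot_iff_le_centralizer] at h1
      exact (Subgroup.mem_centralizer_iff.1 (h1 hy)) x hx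
    · have h2 : ∀ n, L ≤ derivedSeries B n := by
        intro n
        induction n with
        | zero => exact le_top
        | succ n ih =>
          rw [derivedSeries_succ, ← h1]
          exact Subgroup.commutator_mono ih ih
      obtain ⟨n, hn⟩ := (inferInstance : Group.IsSolvable B).solvable
      have h3 := h2 n
      rw [hn, le_bot_iff] at h3
      rw [h3, Subgroup.mem_bot] at hx hy
      rw [hx, hy] at hxy
      exact hxy rfl

theorem solvable_iff [Finite G] [Group.IsSolvable G] : HasAdmissible G ↔ InvertedSection G :=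
  ⟨fun h => (reduction_forward h).resolve_right
    (fun ⟨_, _, _, h1, _⟩ => not_socle_of_solvable h1), of_section⟩

end Pool.Agent.Lib.MP_39b43f_al
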