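import Pool.Agent.Lib.MP_39b43f_al.Basic

/-!
# Structure of admissible pairs: components of the even product graph
-/

namespace Pool.Agent.Lib.MP_39b43f_al

variable {G : Type*} [Group G]

lemma orderOf_cj (g x : G) : orderOf (g⁻¹ * x * g) = orderOf x := by
  have h : SemiconjBy g (g⁻¹ * x * g) x := by
    change g * (g⁻¹ * x * g) = x * g
    group
  exact h.orderOf_eq

lemma orderOf_comm (a b : G) : orderOf (a * b) = orderOf (b * a) := by
  have : b * a = a⁻¹ * (a * b) * a := by group
  rw [this]
  exact (orderOf_cj a (a * b)).symm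

lemma isConj_all [Finite G] {D T : Set G} (hD : IsNormalInvolutionSet D)
    (hT : Admissible D T) : ∀ a ∈ D, ∀ b ∈ D, IsConj a b := by
  obtain ⟨t, ht⟩ := hT.1
  obtain ⟨d, hd, hdT⟩ := Set.exists_of_ssubset hT.2.1
  have key : ∀ x ∈ T, ∀ y ∈ D, y ∉ T → IsConj x y := fun x hx y hy hyT =>
    conj_of_odd (hD.1 x (hT.2.1.1 hx)) (hD.1 y hy) (odd_of_admissible hD hT hx hy hyT)
  have all : ∀ a ∈ D, IsConj a t := by
    intro a ha
    by_cases haT : a ∈ T
    · exact (key a haT d hd hdT).trans (key t ht d hd hdT).symm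
    · exact (key t ht a ha haT).symm
  intro a ha b hb
  exact (all a ha).trans (all b hb).symm

/-- relation: linked by a product of even order -/
def Link (D : Set G) (a b : G) : Prop := a ∈ D ∧ b ∈ D ∧ Even (orderOf (a * b))

/-- the connected component of `a` -/
def comp (D : Set G) (a : G) : Set G := {b | Relation.ReflTransGen (Link D) a b}

lemma link_symm {D : Set G} {a b : G} (h : Link D a b) : Link D b a :=
  ⟨h.2.1, h.1, by rw [orderOf_comm]; exact h.2.2⟩

lemma comp_symm {D : Set G} {a b : G} (h : b ∈ comp D a) : a ∈ comp D b :=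
  by
  change Relation.ReflTransGen (Link D) a b at h
  induction h with
  | refl => exact Relation.ReflTransGen.refl
  | tail _ h2 ih => exact Relation.ReflTransGen.head (link_symm h2) ih

lemma comp_eq {D : Set G} {a b : G} (h : b ∈ comp D a) : comp D b = comp D a := by
  ext c
  exact ⟨fun hc => Relation.ReflTransGen.trans h hc,
    fun hc => Relation.ReflTransGen.trans (comp_symm h) hc⟩

lemma comp_subset {D : Set G} {a : G} (ha : a ∈ D) : comp D a ⊆ D := by
  intro b hb
  change Relation.ReflTransGen (Link D) a b at hb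
  rcases Relation.ReflTransGen.cases_tail hb with h | ⟨c, _, h⟩
  · rw [h]; exact ha
  · exact h.2.1

lemma link_conj {D : Set G} (hD : IsNormalInvolutionSet D) {a b : G} (h : Link D a b) (g : G) :
    Link D (g⁻¹ * a * g) (g⁻¹ * b * g) := by
  refine ⟨conj_mem hD h.1 g, conj_mem hD h.2.1 g, ?_⟩
  have : g⁻¹ * a * g * (g⁻¹ * b * g) = g⁻¹ * (a * b) * g := by group
  rw [this, orderOf_cj]
  exact h.2.2

lemma comp_conj {D : Set G} (hD : IsNormalInvolutionSet D) {a b : G} (h : b ∈ comp D a) (g : G) :
    g⁻¹ * b * g ∈ comp D (g⁻¹ * a * g) := by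
  change Relation.ReflTransGen (Link D) a b at h
  induction h with
  | refl => exact Relation.ReflTransGen.refl
  | tail _ h2 ih => exact Relation.ReflTransGen.tail ih (link_conj hD h2 g)

/-- an admissible subset is a union of components -/
lemma comp_subset_of_admissible [Finite G] {D T : Set G} (hD : IsNormalInvolutionSet D)
    (hT : Admissible D T) {a : G} (ha : a ∈ T) : comp D a ⊆ T := by
  intro b hb
  change Relation.ReflTransGen (Link D) a b at hb
  induction hb with
  | refl => exact ha
  | tail _ h2 ih =>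
    by_contra hcon
    have h3 := odd_of_admissible hD hT ih h2.2.1 hcon
    rw [← Nat.not_even_iff_odd] at h3
    exact h3 h2.2.2

/-- the stabiliser of the component of `a` -/
def stab (D : Set G) (hD : IsNormalInvolutionSet D) (a : G) : Subgroup G where
  carrier := {g | g⁻¹ * a * g ∈ comp D a}
  one_mem' := by
    change (1 : G)⁻¹ * a * 1 ∈ comp D a
    rw [inv_one, one_mul, mul_one]
    exact Relation.ReflTransGen.refl
  mul_mem' := by
    intro g h hg hh
    change (g * h)⁻¹ * a * (g * h) ∈ comp D a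
    have h1 : (g * h)⁻¹ * a * (g * h) = h⁻¹ * (g⁻¹ * a * g) * h := by group
    rw [h1]
    have h2 := comp_conj hD hg h
    rw [comp_eq hh] at h2
    exact h2
  inv_mem' := by
    intro g hg
    change (g⁻¹)⁻¹ * a * g⁻¹ ∈ comp D a
    have h2 := comp_conj hD hg g⁻¹
    have h3 : (g⁻¹)⁻¹ * (g⁻¹ * a * g) * g⁻¹ = a := by group
    rw [h3] at h2
    exact comp_symm h2

lemma mem_stab {D : Set G} (hD : IsNormalInvolutionSet D) {a g : G} :
    g ∈ stab D hD a ↔ g⁻¹ * a * g ∈ comp D a := Iff.rfl

lemma stab_eq {D : Set G} (hD : IsNormalInvolutionSet D) {a b : G} (h : b ∈ comp D a) :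
    stab D hD b = stab D hD a := by
  ext g
  rw [mem_stab, mem_stab, comp_eq h]
  have h2 := comp_conj hD h g
  constructor
  · intro h3
    have h4 := comp_eq h3
    rw [← h4]
    exact comp_symm h2
  · intro h3
    rw [comp_eq h3] at h2
    exact h2

/-- two elements of `D` in a common `2`-subgroup lie in one component -/
lemma comp_of_two_group [Finite G] {D : Set G} (hD : IsNormalInvolutionSet D) {P : Subgroup G}
    (hP : IsPGroup 2 P) {a b : G} (ha : a ∈ D) (hb : b ∈ D) (haP : a ∈ P) (hbP : b ∈ P) :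
    b ∈ comp D a := by
  by_cases hab : a * b = 1
  · have h2 := inv_self (hD.1 a ha)
    have h3 : b = a := by rw [← h2]; exact (inv_eq_of_mul_eq_one_right hab).symm
    rw [h3]
    exact Relation.ReflTransGen.refl
  · apply Relation.ReflTransGen.single
    refine ⟨ha, hb, ?_⟩
    obtain ⟨k, hk⟩ := hP ⟨a * b, P.mul_mem haP hbP⟩
    have h1 : (a * b) ^ 2 ^ k = 1 := by
      have := congrArg Subtype.val hk
      simpa using this
    have h2 := orderOf_dvd_of_pow_eq_one h1
    obtain ⟨j, _, hj⟩ := (Nat.dvd_prime_pow Nat.prime_two).1 h2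
    rw [hj]
    rcases j with _ | j
    · rw [pow_zero, orderOf_eq_one_iff] at hj
      exact absurd hj hab
    · rw [pow_succ]
      exact even_two.mul_left _

/-- every element of `D` lying in the stabiliser of a component lies in the component -/
lemma mem_comp_of_mem_stab [Finite G] {D : Set G} (hD : IsNormalInvolutionSet D) {a d : G}
    (ha : a ∈ D) (hd : d ∈ D) (hds : d ∈ stab D hD a) : d ∈ comp D a ∧ Odd (stab D hD a).index := by
  classical
  set H := stab D hD a with hH
  have haH : a ∈ H := by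
    rw [hH, mem_stab]
    have : a⁻¹ * a * a = a := by group
    rw [this]
    exact Relation.ReflTransGen.refl
  -- a Sylow 2-subgroup of `G` containing `a`
  have hpa : IsPGroup 2 (Subgroup.zpowers a) := by
    apply IsPGroup.of_card (n := 1)
    rw [Nat.card_zpowers, hD.1 a ha, pow_one]
  obtain ⟨P, hPa⟩ := hpa.exists_le_sylow
  have haP : a ∈ (P : Subgroup G) := hPa (Subgroup.mem_zpowers a)
  have hPH : (P : Subgroup G) ≤ H := by
    intro g hg
    rw [hH, mem_stab]
    apply comp_of_two_group hD P.isPGroup' ha (conj_mem hD ha g) haP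
    exact P.mul_mem (P.mul_mem (P.inv_mem hg) haP) hg
  have hodd : Odd H.index := by
    have h1 : H.index ∣ (P : Subgroup G).index := Subgroup.index_dvd_of_le hPH
    have h2 := P.not_dvd_index
    rw [← Nat.not_even_iff_odd, even_iff_two_dvd]
    intro h3
    exact h2 (h3.trans h1)
  refine ⟨?_, hodd⟩
  -- `P` as a Sylow subgroup of `H`
  let PH : Sylow 2 H := P.subtype hPH
  have hpd : IsPGroup 2 (Subgroup.zpowers (⟨d, hds⟩ : H)) := by
    apply IsPGroup.of_card (n := 1)
    rw [Nat.card_zpowers, pow_one, ← Subgroup.orderOf_coe]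
    exact hD.1 d hd
  obtain ⟨Q, hQ⟩ := hpd.exists_le_sylow
  obtain ⟨h, hh⟩ := MulAction.exists_smul_eq H Q PH
  have hdQ : (⟨d, hds⟩ : H) ∈ (Q : Subgroup H) := hQ (Subgroup.mem_zpowers _)
  have h1 : h * ⟨d, hds⟩ * h⁻¹ ∈ (PH : Subgroup H) := by
    rw [← hh]
    have h7 := Subgroup.smul_mem_pointwise_smul (⟨d, hds⟩ : H) (MulAut.conj h) (Q : Subgroup H) hdQ
    exact h7
  have h2 : (h : G) * d * (h : G)⁻¹ ∈ (P : Subgroup G) := h1
  have h3 : (h : G) * d * (h : G)⁻¹ ∈ comp D a := by
    apply comp_of_two_group hD P.isPGroup' ha _ haP h2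
    have := conj_mem hD hd (h : G)⁻¹
    rwa [inv_inv] at this
  have h4 := comp_conj hD h3 (h : G)
  have h5 : (h : G)⁻¹ * ((h : G) * d * (h : G)⁻¹) * (h : G) = d := by group
  rw [h5] at h4
  have h6 : (h : G)⁻¹ * a * (h : G) ∈ comp D a := h.2
  rw [comp_eq h6] at h4
  exact h4

end Pool.Agent.Lib.MP_39b43f_al
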